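import Pool.Agent.HE.Contract
import Pool.Agent.Lib_helper38.Adj.Drawing

/-!
# Drawings with adjacent crossings only: labels, grounded points, tangled edges
(MP_c6bc3d_co, hand-in `BipartiteAllSurfaces`)
-/

set_option autoImplicit false

namespace Pool.Agent.Lib_helper38.Adj

variable {Φ W : Type} {G : SimpleGraph W} {M : FMap Φ}

namespace Drawing

variable (D : Drawing G M)

/-- `p` and `q` are consecutive points of the arc of some edge. -/
def Cons (p q : M.Vert) : Prop := ∃ (u w : W) (h : G.Adj u w), s(p, q) ∈ (D.arc h).edges

/-- A labelling of the points by vertices of `G`: the vertex `w` has the label `w`, and the label of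
a point is an end of every edge through the point (so a point on two different edges is labelled by
their common end). -/
def IsLabel (l : M.Vert → W) : Prop :=
  (∀ w, l (D.pt w) = w) ∧ ∀ p, ∀ e ∈ D.through p, l p ∈ e

/-- `p` is grounded: it is joined to the vertex `l p` by points with the same label `l p`, any two
successive ones of which are consecutive points of some edge. -/
def Grounded (l : M.Vert → W) (p : M.Vert) : Prop :=
  Relation.EqvGen (fun a b => D.Cons a b ∧ l a = l b) p (D.pt (l p))

/-- The edge `uw` is tangled: going from `u` to `w` one meets a point labelled `w` before a point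
labelled `u`.  (Otherwise the labels are `u, ..., u, w, ..., w`.) -/
def Tangled (l : M.Vert → W) {u w : W} (h : G.Adj u w) : Prop :=
  ∃ i j, i < j ∧ j ≤ (D.arc h).length ∧ l ((D.arc h).getVert i) = w ∧ l ((D.arc h).getVert j) = u

end Drawing

end Pool.Agent.Lib_helper38.Adj

namespace Pool.Agent.BIP

/-- The graph with the edges `s e`, `t e` is a minor of `P`, the vertex `w` being represented by a
connected set `T w` that contains `root w`. -/
def Sol {N W E : Type} (P : SimpleGraph N) (root : W → N) (s t : E → W) : Prop :=
  ∃ T : W → Set N, (∀ w, root w ∈ T w) ∧ (∀ w, (P.induce (T w)).Preconnected) ∧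
    (∀ u w, u ≠ w → Disjoint (T u) (T w)) ∧ ∀ e, ∃ x ∈ T (s e), ∃ y ∈ T (t e), P.Adj x y

/-- Chain systems: `N` the nodes, `W` the labels (vertices of the graph), `E` the edges, `s e` and
`t e` the ends of `e`, `root w` the node that contains the vertex `w`; `R e x y`: the nodes `x`
(with label `s e`) and `y` (with label `t e`) are consecutive on the edge `e`; `side`: a 2-colouring. -/
structure CS (N W E : Type) where
  P : SimpleGraph N
  lab : N → W
  root : W → N
  s : E → W
  t : E → W
  R : E → N → N → Prop
  side : N → Bool
  lab_root : ∀ w, lab (root w) = w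
  R_s : ∀ e x y, R e x y → lab x = s e
  R_t : ∀ e x y, R e x y → lab y = t e
  R_adj : ∀ e x y, R e x y → P.Adj x y
  R_side : ∀ e x y, R e x y → x = root (s e) ∨ y = root (t e) ∨ side x ≠ side y
  conn : ∀ e, Relation.EqvGen (R e) (root (s e)) (root (t e))
  ne : ∀ e, s e ≠ t e

/-- `x` is a floating node: not a root. -/
def CS.Flt {N W E : Type} (S : CS N W E) (x : N) : Prop := x ≠ S.root (S.lab x)

/-- difference of two unit vectors -/
def dv {N : Type} [DecidableEq N] (x y : N) : N → ℚ := Pi.single x 1 - Pi.single y 1

end Pool.Agent.BIP
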