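import Pool.Agent.BIP.Stmts

/-!
# BIP: module CMP (components and the span of differences of unit vectors)
-/

set_option autoImplicit false

namespace Pool.Agent.BIP

namespace CMP

open Relation

/-- the sum of the coordinates in a set -/
noncomputable def fn {N : Type} [Fintype N] (p : N → Prop) [DecidablePred p] :
    (N → ℚ) →ₗ[ℚ] ℚ where
  toFun v := ∑ z, if p z then v z else 0
  map_add' v w := by
    rw [← Finset.sum_add_distrib]
    refine Finset.sum_congr rfl fun z _ => ?_
    split_ifs
    · rfl
    · rw [add_zero]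
  map_smul' c v := by
    rw [RingHom.id_apply, smul_eq_mul, Finset.mul_sum]
    refine Finset.sum_congr rfl fun z _ => ?_
    split_ifs
    · rfl
    · rw [mul_zero]

theorem fn_dv {N : Type} [Fintype N] [DecidableEq N] (p : N → Prop) [DecidablePred p] (a b : N) :
    fn p (dv a b) = (if p a then 1 else 0) - (if p b then 1 else 0) := by
  change (∑ z, if p z then dv a b z else 0) = _
  have h : ∀ z, (if p z then dv a b z else 0) =
      (if z = a then (if p a then (1 : ℚ) else 0) else 0) -
        (if z = b then (if p b then (1 : ℚ) else 0) else 0) := by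
    intro z
    unfold dv
    rw [Pi.sub_apply, Pi.single_apply, Pi.single_apply]
    by_cases h1 : z = a
    · subst h1
      by_cases h2 : z = b
      · subst h2
        simp
      · simp [h2]
    · by_cases h2 : z = b
      · subst h2
        by_cases h3 : p z <;> simp [h1, h3]
      · simp [h1, h2]
  rw [Finset.sum_congr rfl fun z _ => h z, Finset.sum_sub_distrib, Finset.sum_ite_eq',
    Finset.sum_ite_eq', if_pos (Finset.mem_univ _), if_pos (Finset.mem_univ _)]

end CMP

open Relation in
theorem t_CMP : M_CMP := by
  classical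
  intro N _ _ ρ x y h
  by_contra hxy
  have h1 : Submodule.span ℚ {v | ∃ a b, ρ a b ∧ v = dv a b} ≤
      LinearMap.ker (CMP.fn fun z => EqvGen ρ x z) := by
    rw [Submodule.span_le]
    rintro v ⟨a, b, hab, rfl⟩
    rw [SetLike.mem_coe, LinearMap.mem_ker, CMP.fn_dv]
    have h2 : EqvGen ρ x a ↔ EqvGen ρ x b :=
      ⟨fun h => h.trans _ _ _ (EqvGen.rel _ _ hab),
        fun h => h.trans _ _ _ ((EqvGen.rel _ _ hab).symm _ _)⟩
    by_cases h3 : EqvGen ρ x a
    · rw [if_pos h3, if_pos (h2.1 h3), sub_self]
    · rw [if_neg h3, if_neg fun h4 => h3 (h2.2 h4), sub_self]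
  have h2 := h1 h
  rw [LinearMap.mem_ker, CMP.fn_dv, if_pos (EqvGen.refl x), if_neg hxy] at h2
  norm_num at h2

end Pool.Agent.BIP
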