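import Pool.Agent.BIP.Stmts

/-!
# Module BIP_DRW: from drawings to chain systems
-/

set_option autoImplicit false

namespace Pool.Agent.BIP

open Relation Pool.Agent.Lib_helper38.Adj

namespace DRW

variable {Φ W : Type} {G : SimpleGraph W} {M : FMap Φ} (D : Drawing G M) (l : M.Vert → W)

/-- steps between consecutive points with the same label -/
def st (a c : M.Vert) : Prop := D.Cons a c ∧ l a = l c

/-- the nodes: classes of points -/
def sd : Setoid M.Vert := EqvGen.setoid (st D l)

/-- the class of a point -/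
def cl (p : M.Vert) : Quotient (sd D l) := Quotient.mk (sd D l) p

theorem cl_eq {p q : M.Vert} : cl D l p = cl D l q ↔ EqvGen (st D l) p q := by
  unfold cl
  rw [Quotient.eq]
  rfl

theorem cons_adj {p q : M.Vert} (h : D.Cons p q) : M.skel.Adj p q := by
  obtain ⟨u, w, h, h1⟩ := h
  exact (D.arc h).adj_of_mem_edges h1

theorem lab_eq {p q : M.Vert} (h : EqvGen (st D l) p q) : l p = l q := by
  induction h with
  | rel _ _ h => exact h.2
  | refl _ => rfl
  | symm _ _ _ ih => exact ih.symm
  | trans _ _ _ _ _ ih1 ih2 => exact ih1.trans ih2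

theorem grounded_of {p q : M.Vert} (h : EqvGen (st D l) p q) (hp : D.Grounded l p) :
    D.Grounded l q := by
  have h1 := lab_eq D l h
  unfold Drawing.Grounded at hp ⊢
  rw [← h1]
  exact EqvGen.trans _ _ _ (EqvGen.symm _ _ h) hp

theorem grounded_iff {p q : M.Vert} (h : EqvGen (st D l) p q) :
    D.Grounded l p ↔ D.Grounded l q :=
  ⟨grounded_of D l h, grounded_of D l (EqvGen.symm _ _ h)⟩

theorem col_eq (col : M.Vert → Bool)
    (hcol : ∀ p q, D.Cons p q → ¬ D.Grounded l p → ¬ D.Grounded l q → (col p = col q ↔ l p = l q))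
    {p q : M.Vert} (h : EqvGen (st D l) p q) : ¬ D.Grounded l p → col p = col q := by
  induction h with
  | rel p q h =>
    intro hp
    have hq : ¬ D.Grounded l q := fun hq => hp ((grounded_iff D l (EqvGen.rel _ _ h)).2 hq)
    exact (hcol p q h.1 hp hq).2 h.2
  | refl _ => intro _; rfl
  | symm p q h ih =>
    intro hq
    exact (ih (fun hp => hq ((grounded_iff D l h).1 hp))).symm
  | trans p q r h1 h2 ih1 ih2 =>
    intro hp
    have hq : ¬ D.Grounded l q := fun hq => hp ((grounded_iff D l h1).2 hq)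
    exact (ih1 hp).trans (ih2 hq)

/-- the relation of the chain system -/
def R (e : {p : W × W // G.Adj p.1 p.2}) (X Y : Quotient (sd D l)) : Prop :=
  ∃ p q, cl D l p = X ∧ cl D l q = Y ∧ s(p, q) ∈ (D.arc e.2).edges ∧ l p = e.1.1 ∧ l q = e.1.2

theorem conn_walk (hl : D.IsLabel l) (e : {p : W × W // G.Adj p.1 p.2}) :
    ∀ {p q : M.Vert} (c : M.skel.Walk p q), (∀ f ∈ c.edges, f ∈ (D.arc e.2).edges) →
      EqvGen (R D l e) (cl D l p) (cl D l q) := by
  intro p q c
  induction c with
  | nil => intro _; exact EqvGen.refl _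
  | @cons p r q hadj c ih =>
    intro hE
    refine EqvGen.trans _ _ _ ?_ (ih (fun f hf => hE f (by simp [hf])))
    have h1 : s(p, r) ∈ (D.arc e.2).edges := hE _ (by simp)
    have hps : p ∈ (D.arc e.2).support := (D.arc e.2).fst_mem_support_of_mem_edges h1
    have hrs : r ∈ (D.arc e.2).support := (D.arc e.2).snd_mem_support_of_mem_edges h1
    have hlp : l p ∈ s(e.1.1, e.1.2) := hl.2 p _ ⟨e.1.1, e.1.2, e.2, rfl, hps⟩
    have hlr : l r ∈ s(e.1.1, e.1.2) := hl.2 r _ ⟨e.1.1, e.1.2, e.2, rfl, hrs⟩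
    rw [Sym2.mem_iff] at hlp hlr
    by_cases heq : l p = l r
    · have : cl D l p = cl D l r := (cl_eq D l).2 (EqvGen.rel _ _ ⟨⟨_, _, e.2, h1⟩, heq⟩)
      rw [this]
      exact EqvGen.refl _
    · rcases hlp with hp | hp <;> rcases hlr with hr | hr
      · exact absurd (hp.trans hr.symm) heq
      · exact EqvGen.rel _ _ ⟨p, r, rfl, rfl, h1, hp, hr⟩
      · exact EqvGen.symm _ _ (EqvGen.rel _ _ ⟨r, p, rfl, rfl, by rwa [Sym2.eq_swap], hr, hp⟩)
      · exact absurd (hp.trans hr.symm) heq

/-- the label of a node -/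
def labN : Quotient (sd D l) → W := Quotient.lift l (fun _ _ h => lab_eq D l h)

theorem labN_cl (p : M.Vert) : labN D l (cl D l p) = l p := rfl

/-- the graph of the chain system -/
def PG : SimpleGraph (Quotient (sd D l)) where
  Adj X Y := X ≠ Y ∧ ∃ p q, cl D l p = X ∧ cl D l q = Y ∧ M.skel.Adj p q
  symm := ⟨by
    rintro X Y ⟨h, p, q, h1, h2, h3⟩
    exact ⟨h.symm, q, p, h2, h1, h3.symm⟩⟩
  loopless := ⟨fun X h => h.1 rfl⟩

theorem cl_out (X : Quotient (sd D l)) : cl D l X.out = X := Quotient.out_eq X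

/-- the chain system of a drawing -/
noncomputable def cs (hl : D.IsLabel l) (col : M.Vert → Bool)
    (hcol : ∀ p q, D.Cons p q → ¬ D.Grounded l p → ¬ D.Grounded l q →
      (col p = col q ↔ l p = l q)) :
    CS (Quotient (sd D l)) W {p : W × W // G.Adj p.1 p.2} where
  P := PG D l
  lab := labN D l
  root w := cl D l (D.pt w)
  s e := e.1.1
  t e := e.1.2
  R := R D l
  side X := col X.out
  lab_root w := by rw [labN_cl]; exact hl.1 w
  R_s := by
    rintro e X Y ⟨p, q, rfl, rfl, h, h1, h2⟩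
    rw [labN_cl]; exact h1
  R_t := by
    rintro e X Y ⟨p, q, rfl, rfl, h, h1, h2⟩
    rw [labN_cl]; exact h2
  R_adj := by
    rintro e X Y ⟨p, q, rfl, rfl, h, h1, h2⟩
    refine ⟨?_, p, q, rfl, rfl, (D.arc e.2).adj_of_mem_edges h⟩
    intro h3
    have h4 := congrArg (labN D l) h3
    rw [labN_cl, labN_cl, h1, h2] at h4
    exact e.2.ne h4
  R_side := by
    rintro e X Y ⟨p, q, rfl, rfl, h, h1, h2⟩
    by_cases hp : D.Grounded l p
    · left
      rw [← h1]
      exact (cl_eq D l).2 hp
    by_cases hq : D.Grounded l q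
    · right; left
      rw [← h2]
      exact (cl_eq D l).2 hq
    right; right
    have e1 : col p = col (cl D l p).out :=
      col_eq D l col hcol ((cl_eq D l).1 (cl_out D l (cl D l p)).symm) hp
    have e2 : col q = col (cl D l q).out :=
      col_eq D l col hcol ((cl_eq D l).1 (cl_out D l (cl D l q)).symm) hq
    rw [← e1, ← e2]
    intro h3
    have h4 := (hcol p q ⟨_, _, e.2, h⟩ hp hq).1 h3
    rw [h1, h2] at h4
    exact e.2.ne h4
  conn e := conn_walk D l hl e (D.arc e.2) (fun _ h => h)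
  ne e := e.2.ne

theorem terr_reach (X : Quotient (sd D l)) {p q : M.Vert} (h : EqvGen (st D l) p q) :
    ∀ (hp : cl D l p = X) (hq : cl D l q = X),
      (M.skel.induce {r | cl D l r = X}).Reachable ⟨p, hp⟩ ⟨q, hq⟩ := by
  induction h with
  | rel p q h =>
    intro hp hq
    exact SimpleGraph.Adj.reachable (cons_adj D h.1)
  | refl p => intro hp hq; exact SimpleGraph.Reachable.refl _
  | symm p q h ih => intro hq hp; exact (ih hp hq).symm
  | trans p q r h1 h2 ih1 ih2 =>
    intro hp hr
    have hq : cl D l q = X := by rw [← hp]; exact ((cl_eq D l).2 h1).symm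
    exact (ih1 hp hq).trans (ih2 hq hr)

end DRW

open DRW in
theorem t_DRW : M_DRW := by
  intro hUNI hIND Φ W _ M G D l hl col hcol
  have : Finite M.Vert := inferInstance
  have : Finite (Quotient (sd D l)) := inferInstance
  have : Fintype (Quotient (sd D l)) := Fintype.ofFinite _
  have h := hIND _ _ _ (cs D l hl col hcol)
  refine hUNI M.Vert (Quotient (sd D l)) W _ M.skel (PG D l) D.pt (fun w => cl D l (D.pt w)) _ _
    (fun q => {p | cl D l p = q}) ?_ ?_ ?_ ?_ h
  · intro X
    rintro ⟨p, hp⟩ ⟨q, hq⟩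
    exact terr_reach D l X ((cl_eq D l).1 (Eq.trans hp (Eq.symm hq))) hp hq
  · intro q q' hne
    rw [Set.disjoint_left]
    intro p hp hp'
    exact hne (Eq.trans (Eq.symm hp) hp')
  · rintro q q' ⟨_, p, p', h1, h2, h3⟩
    exact ⟨p, h1, p', h2, h3⟩
  · intro w
    rfl

end Pool.Agent.BIP
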