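import Pool.Agent.BIP.Stmts

/-!
# Module GSL: selection for graphs
-/

set_option autoImplicit false

namespace Pool.Agent.BIP

open Relation Module

namespace GSL

open Classical in
/-- the vectors of the links through `m` -/
noncomputable def Av {N : Type} [Fintype N] [DecidableEq N] (h : N → N → N → Prop) (m : N) :
    Finset (N → ℚ) :=
  (Finset.univ.filter fun p : N × N => h m p.1 p.2).image fun p => dv p.1 p.2

theorem mem_Av {N : Type} [Fintype N] [DecidableEq N] {h : N → N → N → Prop} {m : N}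
    {v : N → ℚ} : v ∈ Av h m ↔ ∃ x y, h m x y ∧ v = dv x y := by
  classical
  unfold Av
  rw [Finset.mem_image]
  constructor
  · rintro ⟨⟨x, y⟩, hp, rfl⟩
    rw [Finset.mem_filter] at hp
    exact ⟨x, y, hp.2, rfl⟩
  · rintro ⟨x, y, hxy, rfl⟩
    exact ⟨(x, y), Finset.mem_filter.2 ⟨Finset.mem_univ _, hxy⟩, rfl⟩

end GSL

/-- Module GSL. -/
theorem t_GSL : M_SEL → M_CMP → M_RNK → M_GSL := by
  intro hSEL hCMP hRNK N W _ _ lab root A B h hh hB hAB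
  have hU : (⋃ m ∈ B, (GSL.Av h m : Set (N → ℚ))) =
      {v : N → ℚ | ∃ a b, (∃ m ∈ B, h m a b) ∧ v = dv a b} := by
    ext v
    simp only [Set.mem_iUnion, Finset.mem_coe, GSL.mem_Av, Set.mem_setOf_eq, exists_prop]
    constructor
    · rintro ⟨m, hm, x, y, hxy, hv⟩
      exact ⟨x, y, ⟨m, hm, hxy⟩, hv⟩
    · rintro ⟨x, y, ⟨m, hm, hxy⟩, hv⟩
      exact ⟨m, hm, x, y, hxy, hv⟩
  have hr := hRNK N W lab root A (fun x y => ∃ m ∈ B, h m x y)
    (fun x y ⟨m, hm, hxy⟩ => hh m hm x y hxy)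
  rw [← hU] at hr
  obtain ⟨D, hDB, hD, J, hJD, φ, hφ, hsp⟩ := hSEL (N → ℚ) N B (GSL.Av h) hB (hr.trans hAB)
  have hex : ∀ m, ∃ p : N × N, m ∈ J → h m p.1 p.2 ∧ φ m = dv p.1 p.2 := by
    intro m
    by_cases hm : m ∈ J
    · obtain ⟨x, y, hxy, hv⟩ := GSL.mem_Av.1 (hφ m hm)
      exact ⟨(x, y), fun _ => ⟨hxy, hv⟩⟩
    · exact ⟨(m, m), fun h => absurd h hm⟩
  choose P hP using hex
  refine ⟨D, hDB, hD, J, hJD, fun m => (P m).1, fun m => (P m).2, fun m hm => (hP m hm).1, ?_⟩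
  rintro x y ⟨m, hm, hxy⟩
  apply hCMP
  have h1 : dv x y ∈ Submodule.span ℚ (⋃ m ∈ D, (GSL.Av h m : Set (N → ℚ))) := by
    apply Submodule.subset_span
    simp only [Set.mem_iUnion, Finset.mem_coe, GSL.mem_Av, exists_prop]
    exact ⟨m, hm, x, y, hxy, rfl⟩
  rw [← hsp] at h1
  refine Submodule.span_mono ?_ h1
  rintro v ⟨j, hj, rfl⟩
  exact ⟨(P j).1, (P j).2, ⟨j, hj, rfl, rfl⟩, (hP j hj).2⟩

end Pool.Agent.BIP
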