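import Pool.Agent.BIP.Stmts

/-!
# Module IND: every chain system has a solution (MP_c6bc3d_co)
-/

set_option autoImplicit false

namespace Pool.Agent.BIP

open Relation Module

namespace IND

variable {N W E : Type}

theorem left_nb (S : CS N W E) {b : Bool} {m x : N} {e : E} (hm : S.Flt m) (hs : S.side m = b)
    (h : S.R e x m) : (S.Flt x ∧ S.side x = !b) ∨ x = S.root (S.lab x) := by
  by_cases hx : x = S.root (S.lab x)
  · exact Or.inr hx
  · left
    refine ⟨hx, ?_⟩
    rcases S.R_side e x m h with h1 | h1 | h1
    · exact absurd (by rw [S.R_s e x m h]; exact h1) hx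
    · exact absurd (by rw [S.R_t e x m h]; exact h1) hm
    · rw [hs] at h1
      revert h1
      cases S.side x <;> cases b <;> simp

theorem right_nb (S : CS N W E) {b : Bool} {m x : N} {e : E} (hm : S.Flt m) (hs : S.side m = b)
    (h : S.R e m x) : (S.Flt x ∧ S.side x = !b) ∨ x = S.root (S.lab x) := by
  by_cases hx : x = S.root (S.lab x)
  · exact Or.inr hx
  · left
    refine ⟨hx, ?_⟩
    rcases S.R_side e m x h with h1 | h1 | h1
    · exact absurd (by rw [S.R_s e m x h]; exact h1) hm
    · exact absurd (by rw [S.R_t e m x h]; exact h1) hx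
    · rw [hs] at h1
      revert h1
      cases S.side x <;> cases b <;> simp

theorem base (S : CS N W E) (h0 : ∀ x, ¬ S.Flt x) : Sol S.P S.root S.s S.t := by
  have h1 : ∀ x, x = S.root (S.lab x) := fun x => not_not.1 (h0 x)
  refine ⟨fun w => {S.root w}, fun w => rfl, ?_, ?_, ?_⟩
  · rintro w ⟨x, hx⟩ ⟨y, hy⟩
    have hx' : x = S.root w := hx
    have hy' : y = S.root w := hy
    subst hx'
    subst hy'
    exact SimpleGraph.Reachable.refl _
  · intro u w huw
    rw [Set.disjoint_singleton]
    intro h
    have h2 := congrArg S.lab h
    rw [S.lab_root, S.lab_root] at h2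
    exact huw h2
  · intro e
    by_contra hne
    have hno : ∀ x y, ¬ S.R e x y := by
      intro x y hxy
      refine hne ⟨x, ?_, y, ?_, S.R_adj e x y hxy⟩
      · change x = S.root (S.s e)
        rw [← S.R_s e x y hxy]
        exact h1 x
      · change y = S.root (S.t e)
        rw [← S.R_t e x y hxy]
        exact h1 y
    have heq : ∀ x y, EqvGen (S.R e) x y → x = y := by
      intro x y hxy
      induction hxy with
      | rel x y h => exact absurd h (hno x y)
      | refl x => rfl
      | symm x y _ ih => exact ih.symm
      | trans x y z _ _ ih1 ih2 => exact ih1.trans ih2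
    have h2 := congrArg S.lab (heq _ _ (S.conn e))
    rw [S.lab_root, S.lab_root] at h2
    exact S.ne e h2

end IND

theorem t_IND : M_IND := by
  intro hG hQ hU
  have key : ∀ (n : ℕ) (N W E : Type) [Fintype N] (S : CS N W E),
      Nat.card {x // S.Flt x} = n → Sol S.P S.root S.s S.t := by
    intro n
    induction n using Nat.strong_induction_on with
    | _ n ih =>
      intro N W E _ S hn
      classical
      by_cases h0 : ∀ x, ¬ S.Flt x
      · exact IND.base S h0
      · push Not at h0
        obtain ⟨x0, hx0⟩ := h0
        set X : Bool → Finset N := fun b =>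
          Finset.univ.filter fun x => S.Flt x ∧ S.side x = b with hX
        have memX : ∀ b x, x ∈ X b ↔ S.Flt x ∧ S.side x = b := by
          intro b x
          rw [hX, Finset.mem_filter]
          exact ⟨fun h => h.2, fun h => ⟨Finset.mem_univ _, h⟩⟩
        obtain ⟨b, hb⟩ : ∃ b, (X !b).card ≤ (X b).card := by
          rcases le_total (X true).card (X false).card with h | h
          · exact ⟨false, h⟩
          · exact ⟨true, h⟩
        have hBne : (X b).Nonempty := by
          by_cases hs : S.side x0 = b
          · exact ⟨x0, (memX b x0).2 ⟨hx0, hs⟩⟩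
          · have h2 : x0 ∈ X !b := by
              refine (memX _ x0).2 ⟨hx0, ?_⟩
              revert hs
              cases S.side x0 <;> cases b <;> simp
            rw [← Finset.card_pos]
            exact lt_of_lt_of_le (Finset.card_pos.2 ⟨x0, h2⟩) hb
        obtain ⟨D, hDB, hDne, J, hJD, f, g, hfg, hall⟩ :=
          hG N W S.lab S.root (X !b) (X b) (fun m x y => S.lnk m x y) (by
            intro m hm x y hxy
            obtain ⟨hm1, hm2⟩ := (memX b m).1 hm
            have toA : ∀ z, (S.Flt z ∧ S.side z = !b) ∨ z = S.root (S.lab z) →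
                z ∈ (X !b) ∨ z = S.root (S.lab z) := by
              intro z hz
              rcases hz with hz | hz
              · exact Or.inl ((memX _ z).2 hz)
              · exact Or.inr hz
            obtain ⟨e, ⟨h1, h2⟩ | ⟨h1, h2⟩⟩ := hxy
            · exact ⟨by rw [S.R_s e x m h1, S.R_s e y m h2],
                toA x (IND.left_nb S hm1 hm2 h1), toA y (IND.left_nb S hm1 hm2 h2)⟩
            · exact ⟨by rw [S.R_t e m x h1, S.R_t e m y h2],
                toA x (IND.right_nb S hm1 hm2 h1), toA y (IND.right_nb S hm1 hm2 h2)⟩) hBne hb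
        obtain ⟨N', _, S', hs, ht, hcard, hsol⟩ := hQ hU N W E S b D J f g
          (fun m hm => (memX b m).1 (hDB hm)) hJD hfg hall
        refine hsol (ih _ ?_ N' W E S' rfl)
        have hpos : 0 < D.card := Finset.card_pos.2 hDne
        omega
  intro N W E _ S
  exact key _ N W E S rfl

end Pool.Agent.BIP
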