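import Pool.Agent.BIP.Stmts

/-!
# Module LAB: labels of the points of a drawing without independent crossings (MP_c6bc3d_co)
-/

set_option autoImplicit false

namespace Pool.Agent.BIP

open Relation Pool.Agent.Lib_helper38.Adj

theorem t_LAB : M_LAB := by
  intro Φ W _ M G D hD
  classical
  have hne : ∀ e : Sym2 W, ∃ w, w ∈ e := by
    intro e
    induction e using Sym2.ind with | _ a b => exact ⟨a, Sym2.mem_mk_left _ _⟩
  obtain ⟨w0⟩ := ‹Nonempty W›
  have hlab : ∀ p : M.Vert, ∃ l : W, (∀ w, p = D.pt w → l = w) ∧ ∀ e ∈ D.through p, l ∈ e := by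
    intro p
    by_cases hp : ∃ w, p = D.pt w
    · obtain ⟨w, rfl⟩ := hp
      exact ⟨w, fun w' h => D.pt_inj h, fun e he => D.through_pt he⟩
    · push Not at hp
      have hi : p ∉ D.indep := by
        rw [hD]
        exact Set.notMem_empty p
      have hi' : ∀ e ∈ D.through p, ∀ f ∈ D.through p, ∃ w, w ∈ e ∧ w ∈ f := by
        intro e he f hf
        by_contra h
        push Not at h
        exact hi (D.indep_iff.2 ⟨e, he, f, hf, h⟩)
      by_cases hemp : ∃ e, e ∈ D.through p
      · obtain ⟨e, he⟩ := hemp
        by_cases hall : ∀ f ∈ D.through p, f = e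
        · obtain ⟨l, hl⟩ := hne e
          exact ⟨l, fun w h => absurd h (hp w), fun f hf => by rw [hall f hf]; exact hl⟩
        · push Not at hall
          obtain ⟨f, hf, hfe⟩ := hall
          obtain ⟨l, hl1, hl2⟩ := hi' e he f hf
          refine ⟨l, fun w h => absurd h (hp w), fun g hg => ?_⟩
          rcases D.through_general hp he hf hg with h | h | h
          · exact absurd h.symm hfe
          · rw [← h]; exact hl1
          · rw [← h]; exact hl2
      · exact ⟨w0, fun w h => absurd h (hp w), fun e he => absurd ⟨e, he⟩ hemp⟩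
  choose l hl1 hl2 using hlab
  exact ⟨l, fun w => hl1 _ w rfl, hl2⟩

end Pool.Agent.BIP
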