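import Pool.Agent.BIP.Stmts

/-!
Module `QUO`: the contraction step of a chain system.
-/

set_option autoImplicit false

namespace Pool.Agent.BIP

open Relation

namespace QUO

variable {N W E : Type} {S : CS N W E} {b : Bool} {D : Finset N}

/-- linked through an element of `D` -/
def hh (S : CS N W E) (D : Finset N) (x y : N) : Prop := ∃ m ∈ D, S.lnk m x y

/-- a root or of the other side -/
def Gd (S : CS N W E) (b : Bool) (x : N) : Prop := x = S.root (S.lab x) ∨ S.side x ≠ b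

theorem fact1 (hD : ∀ m ∈ D, S.Flt m ∧ S.side m = b) {e : E} {x m : N} (hR : S.R e x m)
    (hm : m ∈ D) : x ∉ D ∧ Gd S b x := by
  have h1 := hD m hm
  have h2 : m ≠ S.root (S.t e) := by
    have h3 := h1.1
    unfold CS.Flt at h3
    rwa [S.R_t e x m hR] at h3
  rcases S.R_side e x m hR with h | h | h
  · have hx : x = S.root (S.lab x) := by rw [S.R_s e x m hR]; exact h
    exact ⟨fun hxD => (hD x hxD).1 hx, Or.inl hx⟩
  · exact absurd h h2
  · rw [h1.2] at h
    exact ⟨fun hxD => h (hD x hxD).2, Or.inr h⟩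

theorem fact2 (hD : ∀ m ∈ D, S.Flt m ∧ S.side m = b) {e : E} {y m : N} (hR : S.R e m y)
    (hm : m ∈ D) : y ∉ D ∧ Gd S b y := by
  have h1 := hD m hm
  have h2 : m ≠ S.root (S.s e) := by
    have h3 := h1.1
    unfold CS.Flt at h3
    rwa [S.R_s e m y hR] at h3
  rcases S.R_side e m y hR with h | h | h
  · exact absurd h h2
  · have hy : y = S.root (S.lab y) := by rw [S.R_t e m y hR]; exact h
    exact ⟨fun hyD => (hD y hyD).1 hy, Or.inl hy⟩
  · rw [h1.2] at h
    exact ⟨fun hyD => h (hD y hyD).2.symm, Or.inr h.symm⟩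

theorem hh_spec (hD : ∀ m ∈ D, S.Flt m ∧ S.side m = b) {x y : N} (h : hh S D x y) :
    S.lab x = S.lab y ∧ (x ∉ D ∧ Gd S b x) ∧ (y ∉ D ∧ Gd S b y) := by
  obtain ⟨m, hm, e, ⟨h1, h2⟩ | ⟨h1, h2⟩⟩ := h
  · exact ⟨(S.R_s e x m h1).trans (S.R_s e y m h2).symm, fact1 hD h1 hm, fact1 hD h2 hm⟩
  · exact ⟨(S.R_t e m x h1).trans (S.R_t e m y h2).symm, fact2 hD h1 hm, fact2 hD h2 hm⟩

/-- the relation on the remaining nodes -/
def rel (S : CS N W E) (D : Finset N) (x y : {x : N // x ∉ D}) : Prop := hh S D x.1 y.1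

/-- the setoid -/
def st (S : CS N W E) (D : Finset N) : Setoid {x : N // x ∉ D} := EqvGen.setoid (rel S D)

/-- the new nodes -/
abbrev NN (S : CS N W E) (D : Finset N) : Type := Quotient (st S D)

/-- the class of a node -/
def cls (S : CS N W E) (D : Finset N) (x : N) (hx : x ∉ D) : NN S D := Quotient.mk (st S D) ⟨x, hx⟩

theorem cls_of_hh {x y : N} (hx : x ∉ D) (hy : y ∉ D) (h : hh S D x y) :
    cls S D x hx = cls S D y hy := Quotient.sound (EqvGen.rel _ _ h)

theorem rel_of_cls {x y : N} {hx : x ∉ D} {hy : y ∉ D} (h : cls S D x hx = cls S D y hy) :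
    EqvGen (rel S D) ⟨x, hx⟩ ⟨y, hy⟩ := Quotient.exact h

theorem lab_rel (hD : ∀ m ∈ D, S.Flt m ∧ S.side m = b) {x y : {x : N // x ∉ D}}
    (h : EqvGen (rel S D) x y) : S.lab x.1 = S.lab y.1 := by
  induction h with
  | rel x y h => exact (hh_spec hD h).1
  | refl x => rfl
  | symm x y _ ih => exact ih.symm
  | trans x y z _ _ ih1 ih2 => exact ih1.trans ih2

theorem gd_rel (hD : ∀ m ∈ D, S.Flt m ∧ S.side m = b) {x y : {x : N // x ∉ D}}
    (h : EqvGen (rel S D) x y) : x = y ∨ (Gd S b x.1 ∧ Gd S b y.1) := by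
  induction h with
  | rel x y h => exact Or.inr ⟨(hh_spec hD h).2.1.2, (hh_spec hD h).2.2.2⟩
  | refl x => exact Or.inl rfl
  | symm x y _ ih =>
    rcases ih with ih | ih
    · exact Or.inl ih.symm
    · exact Or.inr ⟨ih.2, ih.1⟩
  | trans x y z _ _ ih1 ih2 =>
    rcases ih1 with rfl | ih1
    · exact ih2
    · rcases ih2 with rfl | ih2
      · exact Or.inr ih1
      · exact Or.inr ⟨ih1.1, ih2.2⟩

theorem root_notMem (hD : ∀ m ∈ D, S.Flt m ∧ S.side m = b) (w : W) : S.root w ∉ D := by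
  intro h
  have h1 := (hD _ h).1
  unfold CS.Flt at h1
  rw [S.lab_root] at h1
  exact h1 rfl

/-- new labels -/
noncomputable def lab' (S : CS N W E) (D : Finset N) (q : NN S D) : W := S.lab q.out.1

theorem lab'_cls (hD : ∀ m ∈ D, S.Flt m ∧ S.side m = b) {x : N} (hx : x ∉ D) :
    lab' S D (cls S D x hx) = S.lab x := by
  have h : EqvGen (rel S D) (cls S D x hx).out ⟨x, hx⟩ :=
    Quotient.exact (Quotient.out_eq (cls S D x hx))
  exact lab_rel hD h

theorem cls_out (q : NN S D) : cls S D q.out.1 q.out.2 = q := Quotient.out_eq q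

/-- new sides -/
noncomputable def side' (S : CS N W E) (D : Finset N) (q : NN S D) : Bool := S.side q.out.1

theorem side'_cls (hD : ∀ m ∈ D, S.Flt m ∧ S.side m = b) {x : N} (hx : x ∉ D)
    (hr : cls S D x hx ≠ cls S D (S.root (S.lab x)) (root_notMem hD _)) :
    side' S D (cls S D x hx) = S.side x := by
  have h : EqvGen (rel S D) (cls S D x hx).out ⟨x, hx⟩ :=
    Quotient.exact (Quotient.out_eq (cls S D x hx))
  rcases gd_rel hD h with h1 | ⟨h1, h2⟩
  · unfold side'
    rw [h1]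
  · have hl := lab_rel hD h
    have h3 : S.side x ≠ b := by
      rcases h2 with h2 | h2
      · have h4 : (⟨x, hx⟩ : {x : N // x ∉ D}) = ⟨S.root (S.lab x), root_notMem hD _⟩ :=
          Subtype.ext h2
        exact absurd (congrArg (Quotient.mk (st S D)) h4) hr
      · exact h2
    have h4 : S.side (cls S D x hx).out.1 ≠ b := by
      rcases h1 with h1 | h1
      · exfalso
        apply hr
        have h5 : (cls S D x hx).out = ⟨S.root (S.lab x), root_notMem hD _⟩ := by
          apply Subtype.ext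
          rw [h1, hl]
        exact (cls_out (cls S D x hx)).symm.trans (congrArg (Quotient.mk (st S D)) h5)
      · exact h1
    unfold side'
    revert h3 h4
    cases S.side x <;> cases S.side (cls S D x hx).out.1 <;> cases b <;> simp

/-- new relations -/
def R' (S : CS N W E) (D : Finset N) (e : E) (X Y : NN S D) : Prop :=
  ∃ (x y : N) (hx : x ∉ D) (hy : y ∉ D), S.R e x y ∧ cls S D x hx = X ∧ cls S D y hy = Y

/-- territories -/
def terr (S : CS N W E) (D J : Finset N) (f : N → N) (q : NN S D) : Set N :=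
  {x | (∃ hx : x ∉ D, cls S D x hx = q) ∨ (x ∈ J ∧ ∃ hx : f x ∉ D, cls S D (f x) hx = q)}

/-- the new graph -/
def P' (S : CS N W E) (D J : Finset N) (f : N → N) : SimpleGraph (NN S D) where
  Adj q q' := q ≠ q' ∧ ∃ x ∈ terr S D J f q, ∃ y ∈ terr S D J f q', S.P.Adj x y
  symm := ⟨by
    rintro q q' ⟨h, x, hx, y, hy, hxy⟩
    exact ⟨h.symm, y, hy, x, hx, hxy.symm⟩⟩
  loopless := ⟨fun q h => h.1 rfl⟩

open Classical in
/-- the map on nodes along one edge -/
noncomputable def phi (S : CS N W E) (D : Finset N) (q0 : NN S D) (e : E) (z : N) : NN S D :=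
  if hz : z ∉ D then cls S D z hz
  else if hx : ∃ x, x ∉ D ∧ (S.R e x z ∨ S.R e z x) then cls S D hx.choose hx.choose_spec.1
  else q0

theorem phi_of_notMem (q0 : NN S D) (e : E) {z : N} (hz : z ∉ D) :
    phi S D q0 e z = cls S D z hz := dif_pos hz

theorem phi_of_mem (q0 : NN S D) (e : E) {z : N} (hz : z ∈ D)
    (hx : ∃ x, x ∉ D ∧ (S.R e x z ∨ S.R e z x)) :
    ∃ (x : N) (hxD : x ∉ D), (S.R e x z ∨ S.R e z x) ∧ phi S D q0 e z = cls S D x hxD := by
  refine ⟨hx.choose, hx.choose_spec.1, hx.choose_spec.2, ?_⟩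
  unfold phi
  rw [dif_neg (not_not.2 hz), dif_pos hx]

theorem phi_step (hD : ∀ m ∈ D, S.Flt m ∧ S.side m = b) (q0 : NN S D) {e : E} {x y : N}
    (h : S.R e x y) : EqvGen (R' S D e) (phi S D q0 e x) (phi S D q0 e y) := by
  by_cases hx : x ∈ D
  · have hy := (fact2 hD h hx).1
    obtain ⟨x0, hx0, h1, h2⟩ := phi_of_mem q0 e hx ⟨y, hy, Or.inr h⟩
    rw [h2, phi_of_notMem q0 e hy]
    have h3 : S.R e x x0 := by
      rcases h1 with h1 | h1
      · exact absurd ((S.R_s e x y h).symm.trans (S.R_t e x0 x h1)) (S.ne e)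
      · exact h1
    rw [cls_of_hh hx0 hy ⟨x, hx, e, Or.inr ⟨h3, h⟩⟩]
    exact EqvGen.refl _
  · rw [phi_of_notMem q0 e hx]
    by_cases hy : y ∈ D
    · obtain ⟨x0, hx0, h1, h2⟩ := phi_of_mem q0 e hy ⟨x, hx, Or.inl h⟩
      rw [h2]
      have h3 : S.R e x0 y := by
        rcases h1 with h1 | h1
        · exact h1
        · exact absurd ((S.R_s e y x0 h1).symm.trans (S.R_t e x y h)) (S.ne e)
      rw [cls_of_hh hx hx0 ⟨y, hy, e, Or.inl ⟨h, h3⟩⟩]
      exact EqvGen.refl _
    · rw [phi_of_notMem q0 e hy]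
      exact EqvGen.rel _ _ ⟨x, y, hx, hy, h, rfl, rfl⟩

theorem eqvGen_map {α β : Type} {r : α → α → Prop} {r' : β → β → Prop} (φ : α → β)
    (h : ∀ x y, r x y → EqvGen r' (φ x) (φ y)) {x y : α} (hxy : EqvGen r x y) :
    EqvGen r' (φ x) (φ y) := by
  induction hxy with
  | rel x y hr => exact h x y hr
  | refl x => exact EqvGen.refl _
  | symm x y _ ih => exact EqvGen.symm _ _ ih
  | trans x y z _ _ ih1 ih2 => exact EqvGen.trans _ _ _ ih1 ih2

/-- the new chain system -/
noncomputable def S' (S : CS N W E) (b : Bool) (D J : Finset N) (f : N → N)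
    (hD : ∀ m ∈ D, S.Flt m ∧ S.side m = b) : CS (NN S D) W E where
  P := P' S D J f
  lab := lab' S D
  root w := cls S D (S.root w) (root_notMem hD w)
  s := S.s
  t := S.t
  R := R' S D
  side := side' S D
  lab_root w := by rw [lab'_cls hD, S.lab_root]
  R_s := by
    rintro e X Y ⟨x, y, hx, hy, h, rfl, rfl⟩
    rw [lab'_cls hD]
    exact S.R_s e x y h
  R_t := by
    rintro e X Y ⟨x, y, hx, hy, h, rfl, rfl⟩
    rw [lab'_cls hD]
    exact S.R_t e x y h
  R_adj := by
    rintro e X Y ⟨x, y, hx, hy, h, rfl, rfl⟩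
    refine ⟨fun heq => ?_, x, Or.inl ⟨hx, rfl⟩, y, Or.inl ⟨hy, rfl⟩, S.R_adj e x y h⟩
    have h1 : lab' S D (cls S D x hx) = lab' S D (cls S D y hy) := by rw [heq]
    rw [lab'_cls hD, lab'_cls hD, S.R_s e x y h, S.R_t e x y h] at h1
    exact S.ne e h1
  R_side := by
    rintro e X Y ⟨x, y, hx, hy, h, rfl, rfl⟩
    have hs := S.R_s e x y h
    have ht := S.R_t e x y h
    by_cases h1 : cls S D x hx = cls S D (S.root (S.s e)) (root_notMem hD _)
    · exact Or.inl h1
    · by_cases h2 : cls S D y hy = cls S D (S.root (S.t e)) (root_notMem hD _)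
      · exact Or.inr (Or.inl h2)
      · refine Or.inr (Or.inr ?_)
        have e1 : side' S D (cls S D x hx) = S.side x := by
          refine side'_cls hD hx fun h3 => h1 ?_
          rw [h3]
          have h4 : S.root (S.lab x) = S.root (S.s e) := by rw [hs]
          unfold cls
          congr 2
        have e2 : side' S D (cls S D y hy) = S.side y := by
          refine side'_cls hD hy fun h3 => h2 ?_
          rw [h3]
          have h4 : S.root (S.lab y) = S.root (S.t e) := by rw [ht]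
          unfold cls
          congr 2
        rw [e1, e2]
        rcases S.R_side e x y h with h3 | h3 | h3
        · exfalso
          apply h1
          subst h3
          rfl
        · exfalso
          apply h2
          subst h3
          rfl
        · exact h3
  conn e := by
    have h1 := eqvGen_map (phi S D (cls S D (S.root (S.s e)) (root_notMem hD _)) e)
      (fun x y h => phi_step hD _ h) (S.conn e)
    rwa [phi_of_notMem _ e (root_notMem hD _), phi_of_notMem _ e (root_notMem hD _)] at h1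
  ne := S.ne

section terr

variable {J : Finset N} {f g : N → N}

theorem adj_f (hlnk : ∀ m ∈ J, S.lnk m (f m) (g m)) {m : N} (hm : m ∈ J) :
    S.P.Adj m (f m) ∧ S.P.Adj m (g m) := by
  obtain ⟨e, ⟨h1, h2⟩ | ⟨h1, h2⟩⟩ := hlnk m hm
  · exact ⟨(S.R_adj e _ _ h1).symm, (S.R_adj e _ _ h2).symm⟩
  · exact ⟨S.R_adj e _ _ h1, S.R_adj e _ _ h2⟩

theorem reach_of_adj {T : Set N} {x y : N} (hx : x ∈ T) (hy : y ∈ T) (h : S.P.Adj x y) :
    (S.P.induce T).Reachable ⟨x, hx⟩ ⟨y, hy⟩ :=
  SimpleGraph.Adj.reachable (by exact h)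

theorem reach_F (hD : ∀ m ∈ D, S.Flt m ∧ S.side m = b) (hJ : J ⊆ D)
    (hlnk : ∀ m ∈ J, S.lnk m (f m) (g m)) (q : NN S D) {x y : N}
    (h : EqvGen (fun a c => ∃ m ∈ J, a = f m ∧ c = g m) x y) :
    ((∃ hx : x ∉ D, cls S D x hx = q) ↔ ∃ hy : y ∉ D, cls S D y hy = q) ∧
    ∀ (hx : ∃ hx : x ∉ D, cls S D x hx = q) (hy : ∃ hy : y ∉ D, cls S D y hy = q),
      (S.P.induce (terr S D J f q)).Reachable ⟨x, Or.inl hx⟩ ⟨y, Or.inl hy⟩ := by
  induction h with
  | rel x y h =>
    obtain ⟨m, hm, rfl, rfl⟩ := h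
    have hhm : hh S D (f m) (g m) := ⟨m, hJ hm, hlnk m hm⟩
    obtain ⟨_, ⟨hf, _⟩, ⟨hg, _⟩⟩ := hh_spec hD hhm
    have heq : cls S D (f m) hf = cls S D (g m) hg := cls_of_hh hf hg hhm
    refine ⟨⟨fun ⟨_, h1⟩ => ⟨hg, heq ▸ h1⟩, fun ⟨_, h1⟩ => ⟨hf, heq.trans h1⟩⟩, fun hx hy => ?_⟩
    have hm' : m ∈ terr S D J f q := Or.inr ⟨hm, hx⟩
    have hf' : f m ∈ terr S D J f q := Or.inl hx
    have hg' : g m ∈ terr S D J f q := Or.inl hy
    exact (reach_of_adj hf' hm' (adj_f hlnk hm).1.symm).trans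
      (reach_of_adj hm' hg' (adj_f hlnk hm).2)
  | refl x => exact ⟨Iff.rfl, fun hx hy => SimpleGraph.Reachable.refl _⟩
  | symm x y _ ih => exact ⟨ih.1.symm, fun hx hy => (ih.2 hy hx).symm⟩
  | trans x y z _ _ ih1 ih2 =>
    exact ⟨ih1.1.trans ih2.1, fun hx hz => (ih1.2 hx (ih1.1.1 hx)).trans
      (ih2.2 (ih1.1.1 hx) hz)⟩

theorem terr_conn (hD : ∀ m ∈ D, S.Flt m ∧ S.side m = b) (hJ : J ⊆ D)
    (hlnk : ∀ m ∈ J, S.lnk m (f m) (g m))
    (hsp : ∀ x y, (∃ m ∈ D, S.lnk m x y) → EqvGen (fun a c => ∃ m ∈ J, a = f m ∧ c = g m) x y)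
    (q : NN S D) : (S.P.induce (terr S D J f q)).Preconnected := by
  have key : ∀ x y (hx : ∃ hx : x ∉ D, cls S D x hx = q) (hy : ∃ hy : y ∉ D, cls S D y hy = q),
      (S.P.induce (terr S D J f q)).Reachable ⟨x, Or.inl hx⟩ ⟨y, Or.inl hy⟩ := by
    intro x y hx hy
    obtain ⟨hxD, hxq⟩ := hx
    obtain ⟨hyD, hyq⟩ := hy
    have h1 := rel_of_cls (hxq.trans hyq.symm)
    have h2 : EqvGen (fun a c => ∃ m ∈ J, a = f m ∧ c = g m) x y :=
      eqvGen_map (r := rel S D) Subtype.val (fun u v h => hsp u.1 v.1 h) h1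
    exact (reach_F hD hJ hlnk q h2).2 ⟨hxD, hxq⟩ ⟨hyD, hyq⟩
  have base : ∀ u : terr S D J f q, ∃ (x : N) (hx : ∃ hx : x ∉ D, cls S D x hx = q),
      (S.P.induce (terr S D J f q)).Reachable u ⟨x, Or.inl hx⟩ := by
    rintro ⟨u, hu | ⟨hu, hfu⟩⟩
    · exact ⟨u, hu, SimpleGraph.Reachable.refl _⟩
    · exact ⟨f u, hfu, reach_of_adj _ _ (adj_f hlnk hu).1⟩
  intro u v
  obtain ⟨x, hx, h1⟩ := base u
  obtain ⟨y, hy, h2⟩ := base v
  exact h1.trans ((key x y hx hy).trans h2.symm)

theorem terr_disj (hJ : J ⊆ D) (q q' : NN S D) (hne : q ≠ q') :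
    Disjoint (terr S D J f q) (terr S D J f q') := by
  rw [Set.disjoint_left]
  rintro x (⟨h1, h2⟩ | ⟨h1, _, h2⟩) (⟨h3, h4⟩ | ⟨h3, _, h4⟩)
  · exact hne (h2.symm.trans h4)
  · exact h1 (hJ h3)
  · exact h3 (hJ h1)
  · exact hne (h2.symm.trans h4)

end terr

end QUO

open QUO in
theorem t_QUO : M_QUO := by
  intro hUNI N W E _ _ S b D J f g hD hJ hlnk hsp
  classical
  refine ⟨NN S D, Fintype.ofFinite _, S' S b D J f hD, rfl, rfl, ?_, ?_⟩
  · -- the number of floating nodes
    have hflt : ∀ q : NN S D, (S' S b D J f hD).Flt q → S.Flt q.out.1 := by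
      intro q hq h
      apply hq
      show q = cls S D (S.root (lab' S D q)) (root_notMem hD _)
      have h1 : (q.out : {x : N // x ∉ D}) = ⟨S.root (lab' S D q), root_notMem hD _⟩ :=
        Subtype.ext h
      calc q = cls S D q.out.1 q.out.2 := (cls_out q).symm
        _ = Quotient.mk (st S D) q.out := rfl
        _ = Quotient.mk (st S D) ⟨S.root (lab' S D q), root_notMem hD _⟩ := by rw [← h1]
        _ = cls S D (S.root (lab' S D q)) (root_notMem hD _) := rfl
    let F : {q // (S' S b D J f hD).Flt q} ⊕ {m // m ∈ D} → {x // S.Flt x} := fun z =>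
      match z with
      | Sum.inl q => ⟨q.1.out.1, hflt q.1 q.2⟩
      | Sum.inr m => ⟨m.1, (hD m.1 m.2).1⟩
    have hF : Function.Injective F := by
      rintro (q | m) (q' | m') h
      · have h1 : (F (Sum.inl q)).1 = (F (Sum.inl q')).1 := by rw [h]
        change q.1.out.1 = q'.1.out.1 at h1
        have h2 : q.1.out = q'.1.out := Subtype.ext h1
        have h3 : q.1 = q'.1 := by
          rw [← Quotient.out_eq q.1, ← Quotient.out_eq q'.1, h2]
        rw [Subtype.ext h3]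
      · have h1 : (F (Sum.inl q)).1 = (F (Sum.inr m')).1 := by rw [h]
        change q.1.out.1 = m'.1 at h1
        exact absurd (h1 ▸ m'.2) q.1.out.2
      · have h1 : (F (Sum.inr m)).1 = (F (Sum.inl q')).1 := by rw [h]
        change m.1 = q'.1.out.1 at h1
        exact absurd (h1 ▸ m.2) q'.1.out.2
      · have h1 : (F (Sum.inr m)).1 = (F (Sum.inr m')).1 := by rw [h]
        change m.1 = m'.1 at h1
        rw [Subtype.ext h1]
    have h1 := Nat.card_le_card_of_injective F hF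
    rw [Nat.card_sum] at h1
    have h2 : Nat.card {m // m ∈ D} = D.card := by
      rw [Nat.card_eq_fintype_card, Fintype.card_coe]
    rwa [h2] at h1
  · intro hsol
    exact hUNI N (NN S D) W E S.P (P' S D J f) S.root
      (fun w => cls S D (S.root w) (root_notMem hD w)) S.s S.t (terr S D J f)
      (terr_conn hD hJ hlnk hsp) (terr_disj hJ) (fun q q' h => h.2)
      (fun w => Or.inl ⟨root_notMem hD w, rfl⟩) hsol

end Pool.Agent.BIP
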