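import Pool.Agent.BIP.Stmts

/-!
# Rado's theorem for vectors
-/

set_option autoImplicit false

namespace Pool.Agent.BIP

open Module

namespace RAD

variable {V M : Type} [AddCommGroup V] [Module ℚ V]

theorem mem_U {A : M → Finset V} {D : Finset M} {m : M} {x : V} (hm : m ∈ D) (hx : x ∈ A m) :
    x ∈ Submodule.span ℚ (⋃ m ∈ D, (A m : Set V)) :=
  Submodule.subset_span (Set.mem_biUnion (x := m) (by simpa using hm) (by simpa using hx))

theorem U_le {A : M → Finset V} {D : Finset M} {S : Submodule ℚ V}
    (h : ∀ m ∈ D, ∀ x ∈ A m, x ∈ S) : Submodule.span ℚ (⋃ m ∈ D, (A m : Set V)) ≤ S := by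
  rw [Submodule.span_le]
  intro x hx
  simp only [Set.mem_iUnion, Finset.mem_coe] at hx
  obtain ⟨m, hm, hx⟩ := hx
  exact h m hm x hx

/-- the submodular inequality -/
theorem step [FiniteDimensional ℚ V] [DecidableEq M] [DecidableEq V] {D : Finset M}
    {A : M → Finset V}
    (hA : ∀ D' ⊆ D, D'.card ≤ finrank ℚ (Submodule.span ℚ (⋃ m ∈ D', (A m : Set V))))
    {m : M} {a b : V} (hab : a ≠ b) {D1 D2 : Finset M} (h1 : D1 ⊆ D) (h2 : D2 ⊆ D)
    (hm1 : m ∈ D1) (hm2 : m ∈ D2)
    (hX1 : finrank ℚ (Submodule.span ℚ
      (⋃ m' ∈ D1, (Function.update A m ((A m).erase a) m' : Set V))) < D1.card)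
    (hX2 : finrank ℚ (Submodule.span ℚ
      (⋃ m' ∈ D2, (Function.update A m ((A m).erase b) m' : Set V))) < D2.card) : False := by
  set X1 := Submodule.span ℚ (⋃ m' ∈ D1, (Function.update A m ((A m).erase a) m' : Set V))
    with hX1d
  set X2 := Submodule.span ℚ (⋃ m' ∈ D2, (Function.update A m ((A m).erase b) m' : Set V))
    with hX2d
  have hu : Submodule.span ℚ (⋃ m' ∈ D1 ∪ D2, (A m' : Set V)) ≤ X1 ⊔ X2 := by
    apply U_le
    intro m' hm' x hx
    by_cases hmm : m' = m
    · rw [hmm] at hx
      by_cases hxa : x = a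
      · apply Submodule.mem_sup_right
        refine mem_U (A := Function.update A m ((A m).erase b)) hm2 ?_
        rw [Function.update_self, Finset.mem_erase]
        exact ⟨by rw [hxa]; exact hab, hx⟩
      · apply Submodule.mem_sup_left
        refine mem_U (A := Function.update A m ((A m).erase a)) hm1 ?_
        rw [Function.update_self, Finset.mem_erase]
        exact ⟨hxa, hx⟩
    · rcases Finset.mem_union.1 hm' with h | h
      · apply Submodule.mem_sup_left
        refine mem_U (A := Function.update A m ((A m).erase a)) h ?_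
        rw [Function.update_of_ne hmm]
        exact hx
      · apply Submodule.mem_sup_right
        refine mem_U (A := Function.update A m ((A m).erase b)) h ?_
        rw [Function.update_of_ne hmm]
        exact hx
  have hi : Submodule.span ℚ (⋃ m' ∈ (D1 ∩ D2).erase m, (A m' : Set V)) ≤ X1 ⊓ X2 := by
    apply U_le
    intro m' hm' x hx
    obtain ⟨hmm, h⟩ := Finset.mem_erase.1 hm'
    obtain ⟨h3, h4⟩ := Finset.mem_inter.1 h
    refine Submodule.mem_inf.2 ⟨?_, ?_⟩
    · refine mem_U (A := Function.update A m ((A m).erase a)) h3 ?_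
      rw [Function.update_of_ne hmm]
      exact hx
    · refine mem_U (A := Function.update A m ((A m).erase b)) h4 ?_
      rw [Function.update_of_ne hmm]
      exact hx
  have e1 := (hA (D1 ∪ D2) (Finset.union_subset h1 h2)).trans (Submodule.finrank_mono hu)
  have e2 := (hA ((D1 ∩ D2).erase m) ((Finset.erase_subset _ _).trans
    (Finset.inter_subset_left.trans h1))).trans (Submodule.finrank_mono hi)
  have e3 := Submodule.finrank_sup_add_finrank_inf_eq X1 X2
  have e4 := Finset.card_union_add_card_inter D1 D2
  have hmi : m ∈ D1 ∩ D2 := Finset.mem_inter.2 ⟨hm1, hm2⟩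
  have e5 := Finset.card_erase_add_one hmi
  omega

end RAD

open RAD in
theorem t_RAD : M_RAD := by
  classical
  intro V M _ _ _ _ D A
  induction h : ∑ m ∈ D, (A m).card using Nat.strong_induction_on generalizing A with
  | _ n ih =>
  intro hA
  by_cases hc : ∀ m ∈ D, (A m).card ≤ 1
  · have hne : ∀ m ∈ D, (A m).Nonempty := by
      intro m hm
      by_contra hcon
      rw [Finset.not_nonempty_iff_eq_empty] at hcon
      have h1 := hA {m} (by simpa using hm)
      simp [hcon] at h1
    choose! f hf using hne
    refine ⟨f, hf, ?_⟩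
    have hA1 : ∀ m ∈ D, A m = {f m} := by
      intro m hm
      exact (Finset.eq_of_subset_of_card_le (by simpa using hf m hm)
        (by simpa using hc m hm)).symm
    rw [linearIndependent_iff_card_le_finrank_span]
    have hr : Set.range (fun m : D => f m) = ⋃ m ∈ D, (A m : Set V) := by
      ext x
      simp only [Set.mem_range, Set.mem_iUnion, Finset.mem_coe, Subtype.exists, exists_prop]
      constructor
      · rintro ⟨m, hm, rfl⟩
        exact ⟨m, hm, hf m hm⟩
      · rintro ⟨m, hm, hx⟩
        refine ⟨m, hm, ?_⟩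
        rw [hA1 m hm, Finset.mem_singleton] at hx
        exact hx.symm
    rw [Set.finrank, hr]
    simpa using hA D subset_rfl
  · push Not at hc
    obtain ⟨m, hm, hm2⟩ := hc
    obtain ⟨a, ha, b, hb, hab⟩ := Finset.one_lt_card.1 hm2
    -- removing an element
    have key : ∀ c ∈ A m, (∀ D' ⊆ D, D'.card ≤ finrank ℚ (Submodule.span ℚ
        (⋃ m' ∈ D', (Function.update A m ((A m).erase c) m' : Set V)))) →
        ∃ f : M → V, (∀ m ∈ D, f m ∈ A m) ∧ LinearIndependent ℚ (fun m : D => f m) := by
      intro c hcm hcA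
      have hlt : ∑ m' ∈ D, (Function.update A m ((A m).erase c) m').card < n := by
        rw [← h]
        refine Finset.sum_lt_sum ?_ ⟨m, hm, ?_⟩
        · intro m' _
          by_cases hmm : m' = m
          · rw [hmm, Function.update_self]
            exact Finset.card_le_card (Finset.erase_subset _ _)
          · rw [Function.update_of_ne hmm]
        · rw [Function.update_self]
          exact Finset.card_erase_lt_of_mem hcm
      obtain ⟨f, hf, hfi⟩ := ih _ hlt _ rfl hcA
      refine ⟨f, ?_, hfi⟩
      intro m' hm'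
      have h1 := hf m' hm'
      by_cases hmm : m' = m
      · rw [hmm, Function.update_self] at h1
        rw [hmm]
        exact Finset.mem_of_mem_erase h1
      · rwa [Function.update_of_ne hmm] at h1
    by_cases ca : ∀ D' ⊆ D, D'.card ≤ finrank ℚ (Submodule.span ℚ
        (⋃ m' ∈ D', (Function.update A m ((A m).erase a) m' : Set V)))
    · exact key a ha ca
    by_cases cb : ∀ D' ⊆ D, D'.card ≤ finrank ℚ (Submodule.span ℚ
        (⋃ m' ∈ D', (Function.update A m ((A m).erase b) m' : Set V)))
    · exact key b hb cb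
    exfalso
    have hin : ∀ c, ∀ D' ⊆ D, finrank ℚ (Submodule.span ℚ
        (⋃ m' ∈ D', (Function.update A m ((A m).erase c) m' : Set V))) < D'.card → m ∈ D' := by
      intro c D' hD' hlt
      by_contra hmD
      have e : (⋃ m' ∈ D', (Function.update A m ((A m).erase c) m' : Set V)) =
          ⋃ m' ∈ D', (A m' : Set V) := by
        refine Set.iUnion₂_congr fun m' hm' => ?_
        rw [Function.update_of_ne]
        rintro rfl
        exact hmD hm'
      rw [e] at hlt
      have := hA D' hD'
      omega
    push Not at ca cb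
    obtain ⟨D1, hD1, hX1⟩ := ca
    obtain ⟨D2, hD2, hX2⟩ := cb
    exact step hA hab hD1 hD2 (hin a D1 hD1 hX1) (hin b D2 hD2 hX2) hX1 hX2

end Pool.Agent.BIP
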