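import Pool.Agent.BIP.Stmts

/-!
# The rank of the links (module `RNK`)
-/

set_option autoImplicit false

namespace Pool.Agent.BIP

open Relation Module

namespace RNK

variable {N W : Type} [Fintype N] [DecidableEq N] [DecidableEq W]

/-- sum over the nodes with the label `w` -/
def sm (lab : N → W) (w : W) : (N → ℚ) →ₗ[ℚ] ℚ :=
  ∑ z ∈ Finset.univ.filter (fun z => lab z = w), LinearMap.proj z

omit [DecidableEq N] in
theorem sm_apply (lab : N → W) (w : W) (v : N → ℚ) :
    sm lab w v = ∑ z ∈ Finset.univ.filter (fun z => lab z = w), v z := by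
  simp [sm]

theorem sm_single (lab : N → W) (w : W) (a : N) :
    sm lab w (Pi.single a 1) = if lab a = w then 1 else 0 := by
  rw [sm_apply, Finset.sum_filter, Finset.sum_eq_single a]
  · rw [Pi.single_eq_same]
  · intro b _ hb
    rw [Pi.single_eq_of_ne hb]
    exact ite_self 0
  · intro h
    exact absurd (Finset.mem_univ a) h

theorem sm_dv (lab : N → W) (w : W) {a b : N} (h : lab a = lab b) : sm lab w (dv a b) = 0 := by
  unfold dv
  rw [map_sub, sm_single, sm_single, h, sub_self]

theorem props (lab : N → W) (root : W → N) (A : Finset N) (ρ : N → N → Prop)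
    (hρ : ∀ x y, ρ x y → lab x = lab y ∧ (x ∈ A ∨ x = root (lab x)) ∧ (y ∈ A ∨ y = root (lab y)))
    (v : N → ℚ) (hv : v ∈ Submodule.span ℚ {v : N → ℚ | ∃ a b, ρ a b ∧ v = dv a b}) :
    (∀ z, z ∉ A → z ≠ root (lab z) → v z = 0) ∧ ∀ w, sm lab w v = 0 := by
  induction hv using Submodule.span_induction with
  | mem v h =>
    obtain ⟨a, b, hab, rfl⟩ := h
    obtain ⟨h1, h2, h3⟩ := hρ a b hab
    refine ⟨?_, fun w => sm_dv lab w h1⟩
    intro z hz hz'
    have ha : z ≠ a := by
      rintro rfl
      rcases h2 with h2 | h2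
      · exact hz h2
      · exact hz' h2
    have hb : z ≠ b := by
      rintro rfl
      rcases h3 with h3 | h3
      · exact hz h3
      · exact hz' h3
    simp [dv, ha, hb]
  | zero => exact ⟨fun z _ _ => rfl, fun w => map_zero _⟩
  | add x y _ _ hx hy =>
    refine ⟨fun z h1 h2 => ?_, fun w => by rw [map_add, hx.2, hy.2, add_zero]⟩
    rw [Pi.add_apply, hx.1 z h1 h2, hy.1 z h1 h2, add_zero]
  | smul c x _ hx =>
    refine ⟨fun z h1 h2 => ?_, fun w => by rw [map_smul, hx.2, smul_zero]⟩
    rw [Pi.smul_apply, hx.1 z h1 h2, smul_zero]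

end RNK

theorem t_RNK : M_RNK := by
  classical
  intro N W _ _ lab root A ρ hρ
  let U := Submodule.span ℚ {v : N → ℚ | ∃ a b, ρ a b ∧ v = dv a b}
  let φ : U →ₗ[ℚ] (A → ℚ) := (LinearMap.funLeft ℚ ℚ (Subtype.val : A → N)).comp U.subtype
  have hφ : Function.Injective φ := by
    rw [← LinearMap.ker_eq_bot, LinearMap.ker_eq_bot']
    rintro ⟨v, hv⟩ h
    obtain ⟨h1, h2⟩ := RNK.props lab root A ρ hρ v hv
    have hA : ∀ z ∈ A, v z = 0 := fun z hz => congrFun h ⟨z, hz⟩
    apply Subtype.ext
    funext z
    show v z = 0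
    by_cases hz : z ∈ A
    · exact hA z hz
    by_cases hz' : z = root (lab z)
    · have h3 := h2 (lab z)
      rw [RNK.sm_apply, Finset.sum_eq_single z] at h3
      · exact h3
      · intro y hy hyz
        rw [Finset.mem_filter] at hy
        by_cases hyA : y ∈ A
        · exact hA y hyA
        apply h1 y hyA
        intro h4
        apply hyz
        rw [h4, hy.2]
        exact hz'.symm
      · intro h4
        exact absurd (Finset.mem_filter.2 ⟨Finset.mem_univ z, rfl⟩ :
          z ∈ Finset.univ.filter (fun y => lab y = lab z)) h4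
    · exact h1 z hz hz'
  have h := LinearMap.finrank_le_finrank_of_injective hφ
  rw [Module.finrank_fintype_fun_eq_card, Fintype.card_coe] at h
  exact h

end Pool.Agent.BIP
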