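import Pool.Agent.BIP.Stmts

/-!
# Module SEL: selection from Rado's theorem
-/

set_option autoImplicit false

namespace Pool.Agent.BIP

open Relation Module

theorem t_SEL : M_RAD → M_SEL := by
  classical
  intro hRAD V M _ _ _ _ D A hne hle
  have mono : ∀ X Y : Finset M, X ⊆ Y →
      finrank ℚ (Submodule.span ℚ (⋃ m ∈ X, (A m : Set V))) ≤
        finrank ℚ (Submodule.span ℚ (⋃ m ∈ Y, (A m : Set V))) := fun X Y h =>
    Submodule.finrank_mono (Submodule.span_mono (Set.biUnion_subset_biUnion_left h))
  obtain ⟨D', hD', hmin⟩ := Finset.exists_min_image (D.powerset.filter fun X => X.Nonempty ∧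
    finrank ℚ (Submodule.span ℚ (⋃ m ∈ X, (A m : Set V))) ≤ X.card) Finset.card
    ⟨D, Finset.mem_filter.2 ⟨Finset.mem_powerset_self D, hne, hle⟩⟩
  obtain ⟨h1, h2, h3⟩ := Finset.mem_filter.1 hD'
  have hsub : D' ⊆ D := Finset.mem_powerset.1 h1
  have hprop : ∀ X, X ⊆ D' → X.Nonempty → X.card < D'.card →
      X.card < finrank ℚ (Submodule.span ℚ (⋃ m ∈ X, (A m : Set V))) := by
    intro X hX hXn hc
    by_contra h
    have h4 := hmin X (Finset.mem_filter.2 ⟨Finset.mem_powerset.2 (hX.trans hsub), hXn,
      not_lt.1 h⟩)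
    omega
  rcases h3.lt_or_eq with hlt | heq
  · refine ⟨D', hsub, h2, ∅, Finset.empty_subset _, fun _ => 0, by simp, ?_⟩
    have h0 : finrank ℚ (Submodule.span ℚ (⋃ m ∈ D', (A m : Set V))) = 0 := by
      obtain ⟨m, hm⟩ := h2
      have hc := Finset.card_erase_add_one hm
      rcases (D'.erase m).eq_empty_or_nonempty with he | hn
      · rw [he, Finset.card_empty] at hc
        omega
      · have h5 := hprop _ (Finset.erase_subset m D') hn (by omega)
        have h6 := mono _ _ (Finset.erase_subset m D')
        omega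
    have h7 := Submodule.finrank_eq_zero.1 h0
    rw [h7]
    simp
  · obtain ⟨f, hf, hli⟩ := hRAD V M D' A (by
      intro X hX
      rcases X.eq_empty_or_nonempty with he | hn
      · rw [he, Finset.card_empty]
        exact Nat.zero_le _
      · rcases (Finset.card_le_card hX).lt_or_eq with hc | hc
        · exact (hprop X hX hn hc).le
        · rw [Finset.eq_of_subset_of_card_le hX hc.ge]
          exact heq.ge)
    refine ⟨D', hsub, h2, D', subset_rfl, f, hf, ?_⟩
    have hle' : Submodule.span ℚ (f '' (D' : Set M)) ≤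
        Submodule.span ℚ (⋃ m ∈ D', (A m : Set V)) := by
      apply Submodule.span_mono
      rintro _ ⟨m, hm, rfl⟩
      exact Set.mem_biUnion hm (hf m hm)
    apply Submodule.eq_of_le_of_finrank_eq hle'
    have h8 := finrank_span_eq_card hli
    have h9 : Set.range (fun m : D' => f m) = f '' (D' : Set M) := by
      ext v
      simp
    rw [h9] at h8
    rw [h8, heq]
    simp

end Pool.Agent.BIP
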