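import Pool.Agent.BIP.Stmts

/-!
# BIP, module TNG: tangled edges
-/

set_option autoImplicit false

namespace Pool.Agent.BIP

open Relation Pool.Agent.Lib_helper38.Adj

namespace TNG

theorem mem_edges_getVert {V : Type} {G : SimpleGraph V} {u v : V} (c : G.Walk u v)
    (e : Sym2 V) : e ∈ c.edges ↔ ∃ i, i < c.length ∧ e = s(c.getVert i, c.getVert (i + 1)) := by
  induction c with
  | nil => simp
  | @cons x y z h q ih =>
    rw [SimpleGraph.Walk.edges_cons, List.mem_cons, SimpleGraph.Walk.length_cons]
    constructor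
    · rintro (h1 | h1)
      · refine ⟨0, Nat.succ_pos _, ?_⟩
        rw [h1, SimpleGraph.Walk.getVert_zero, SimpleGraph.Walk.getVert_cons_succ,
          SimpleGraph.Walk.getVert_zero]
      · obtain ⟨i, hi, he⟩ := ih.1 h1
        refine ⟨i + 1, Nat.succ_lt_succ hi, ?_⟩
        rw [he, SimpleGraph.Walk.getVert_cons_succ, SimpleGraph.Walk.getVert_cons_succ]
    · rintro ⟨i, hi, he⟩
      cases i with
      | zero =>
        left
        rw [he, SimpleGraph.Walk.getVert_zero, SimpleGraph.Walk.getVert_cons_succ,
          SimpleGraph.Walk.getVert_zero]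
      | succ i =>
        right
        rw [ih]
        refine ⟨i, Nat.lt_of_succ_lt_succ hi, ?_⟩
        rw [he, SimpleGraph.Walk.getVert_cons_succ, SimpleGraph.Walk.getVert_cons_succ]

variable {Φ W : Type} {G : SimpleGraph W} {M : FMap Φ} {D : Drawing G M} {l : M.Vert → W}

theorem lab_mem (hl : D.IsLabel l) {u w : W} (h : G.Adj u w) (i : ℕ) :
    l ((D.arc h).getVert i) = u ∨ l ((D.arc h).getVert i) = w := by
  have h1 := hl.2 ((D.arc h).getVert i) s(u, w)
    ⟨u, w, h, rfl, SimpleGraph.Walk.getVert_mem_support _ _⟩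
  rwa [Sym2.mem_iff] at h1

/-- If all points up to `i` have the label `u` then the point `i` is grounded. -/
theorem grounded_of_le {u w : W} (hl : D.IsLabel l) (h : G.Adj u w) : ∀ i,
    i ≤ (D.arc h).length → (∀ k, k ≤ i → l ((D.arc h).getVert k) = u) →
    D.Grounded l ((D.arc h).getVert i) := by
  intro i
  induction i with
  | zero =>
    intro _ _
    unfold Drawing.Grounded
    rw [SimpleGraph.Walk.getVert_zero, hl.1 u]
    exact EqvGen.refl _
  | succ i ih =>
    intro hi hk
    have h1 := ih (by omega) (fun k hki => hk k (by omega))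
    unfold Drawing.Grounded at h1 ⊢
    rw [hk i (by omega)] at h1
    rw [hk (i + 1) le_rfl]
    refine EqvGen.trans _ _ _ ?_ h1
    apply EqvGen.symm
    apply EqvGen.rel
    refine ⟨⟨u, w, h, ?_⟩, ?_⟩
    · rw [mem_edges_getVert]
      exact ⟨i, by omega, rfl⟩
    · rw [hk i (by omega), hk (i + 1) le_rfl]

/-- The first end of an edge of an arc that is not tangled is grounded if the labels change. -/
theorem grounded_of_change {u w : W} (hl : D.IsLabel l) (h : G.Adj u w)
    (ht : ¬ D.Tangled l h) {i : ℕ} (hi : i < (D.arc h).length)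
    (hne : l ((D.arc h).getVert i) ≠ l ((D.arc h).getVert (i + 1))) :
    D.Grounded l ((D.arc h).getVert i) := by
  have hiu : l ((D.arc h).getVert i) = u := by
    rcases lab_mem hl h i with h1 | h1
    · exact h1
    · exfalso
      rcases lab_mem hl h (i + 1) with h2 | h2
      · exact ht ⟨i, i + 1, Nat.lt_succ_self i, hi, h1, h2⟩
      · exact hne (h1.trans h2.symm)
  apply grounded_of_le hl h i hi.le
  intro k hk
  rcases lab_mem hl h k with h1 | h1
  · exact h1
  · rcases Nat.eq_or_lt_of_le hk with h2 | h2
    · rw [h2]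
      exact hiu
    · exact absurd ⟨k, i, h2, hi.le, h1, hiu⟩ ht

end TNG

theorem t_TNG : M_TNG := by
  intro Φ W M G D l hl c hc
  refine ⟨fun p => c (l p), ?_⟩
  intro p q hpq hp hq
  constructor
  · intro hcol
    by_contra hne
    obtain ⟨u, w, h, he⟩ := hpq
    obtain ⟨i, hi, he2⟩ := (TNG.mem_edges_getVert _ _).1 he
    have key : D.Tangled l h ∧ s(l p, l q) = s(u, w) := by
      have h3 : s(l p, l q) = s(l ((D.arc h).getVert i), l ((D.arc h).getVert (i + 1))) := by
        have := congrArg (Sym2.map l) he2
        simpa only [Sym2.map_mk] using this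
      have hne2 : l ((D.arc h).getVert i) ≠ l ((D.arc h).getVert (i + 1)) := by
        intro h4
        rw [h4, Sym2.eq_iff] at h3
        rcases h3 with ⟨h5, h6⟩ | ⟨h5, h6⟩
        · exact hne (h5.trans h6.symm)
        · exact hne (h5.trans h6.symm)
      constructor
      · by_contra ht
        have hg := TNG.grounded_of_change hl h ht hi hne2
        rw [Sym2.eq_iff] at he2
        rcases he2 with ⟨h5, -⟩ | ⟨-, h5⟩
        · rw [← h5] at hg
          exact hp hg
        · rw [← h5] at hg
          exact hq hg
      · rw [h3]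
        rcases TNG.lab_mem hl h i with h5 | h5 <;> rcases TNG.lab_mem hl h (i + 1) with h6 | h6
        · exact absurd (h5.trans h6.symm) hne2
        · rw [h5, h6]
        · rw [h5, h6]
          exact Sym2.eq_swap
        · exact absurd (h5.trans h6.symm) hne2
    have h7 := hc h key.1
    have h8 := key.2
    change c (l p) = c (l q) at hcol
    rw [Sym2.eq_iff] at h8
    rcases h8 with ⟨h9, h10⟩ | ⟨h9, h10⟩
    · rw [h9, h10] at hcol
      exact h7 hcol
    · rw [h9, h10] at hcol
      exact h7 hcol.symm
  · intro h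
    simp only [h]

end Pool.Agent.BIP
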