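import Pool.Agent.BIP.Stmts

/-!
# Module BIP_UNI (MP_c6bc3d_co): composition of minors
-/

set_option autoImplicit false

namespace Pool.Agent.BIP

namespace UNI

variable {N N' : Type} {P : SimpleGraph N} {P' : SimpleGraph N'} {terr : N' → Set N}

theorem mem_U {T : Set N'} {q : N'} (hq : q ∈ T) {x : N} (hx : x ∈ terr q) :
    x ∈ ⋃ q ∈ T, terr q := Set.mem_biUnion hq hx

theorem inside (hc : ∀ q, (P.induce (terr q)).Preconnected) {T : Set N'} {q : N'} (hq : q ∈ T)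
    {x y : N} (hx : x ∈ terr q) (hy : y ∈ terr q) :
    (P.induce (⋃ q ∈ T, terr q)).Reachable ⟨x, mem_U hq hx⟩ ⟨y, mem_U hq hy⟩ := by
  have hle : terr q ≤ ⋃ q ∈ T, terr q := fun z hz => mem_U hq hz
  exact (hc q ⟨x, hx⟩ ⟨y, hy⟩).map (P.induceHomOfLE hle).toHom

theorem walk (hc : ∀ q, (P.induce (terr q)).Preconnected)
    (ha : ∀ q q', P'.Adj q q' → ∃ x ∈ terr q, ∃ y ∈ terr q', P.Adj x y) {T : Set N'}
    {q q' : T} (p : (P'.induce T).Walk q q') : ∀ (x y : N) (hx : x ∈ terr q) (hy : y ∈ terr q'),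
    (P.induce (⋃ q ∈ T, terr q)).Reachable ⟨x, mem_U q.2 hx⟩ ⟨y, mem_U q'.2 hy⟩ := by
  induction p with
  | @nil u => exact fun x y hx hy => inside hc u.2 hx hy
  | @cons u v w h p ih =>
    intro x y hx hy
    obtain ⟨a, ha1, b, hb1, hab⟩ := ha u v h
    have h1 := inside hc u.2 hx ha1
    have h2 : (P.induce (⋃ q ∈ T, terr q)).Adj ⟨a, mem_U u.2 ha1⟩ ⟨b, mem_U v.2 hb1⟩ := hab
    exact (h1.trans h2.reachable).trans (ih b y hb1 hy)

end UNI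

open UNI in
theorem t_UNI : M_UNI := by
  rintro N N' W E P P' root root' s t terr hc hd ha hr ⟨T', h1, h2, h3, h4⟩
  refine ⟨fun w => ⋃ q ∈ T' w, terr q, fun w => mem_U (h1 w) (hr w), ?_, ?_, ?_⟩
  · rintro w ⟨x, hx⟩ ⟨y, hy⟩
    obtain ⟨q, hq, hxq⟩ := Set.mem_iUnion₂.1 hx
    obtain ⟨q', hq', hyq⟩ := Set.mem_iUnion₂.1 hy
    obtain ⟨p⟩ := h2 w ⟨q, hq⟩ ⟨q', hq'⟩
    exact walk hc ha p x y hxq hyq
  · intro u w huw
    rw [Set.disjoint_left]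
    intro x hx hy
    obtain ⟨q, hq, hxq⟩ := Set.mem_iUnion₂.1 hx
    obtain ⟨q', hq', hyq⟩ := Set.mem_iUnion₂.1 hy
    by_cases e : q = q'
    · subst e
      exact Set.disjoint_left.1 (h3 u w huw) hq hq'
    · exact Set.disjoint_left.1 (hd q q' e) hxq hyq
  · intro e
    obtain ⟨x', hx', y', hy', hadj⟩ := h4 e
    obtain ⟨x, hx, y, hy, hxy⟩ := ha x' y' hadj
    exact ⟨x, mem_U hx' hx, y, mem_U hy' hy, hxy⟩

end Pool.Agent.BIP
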