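import Pool.Agent.BIP.Defs

/-!
# Statements of the modules `BIP_*` (MP_c6bc3d_co)

Theorem.  Let the graph `G` be drawn on a closed surface so that independent edges never meet.  If `G`
is bipartite (or, more generally, the tangled edges form a bipartite graph, or, more generally, the floating
points have a suitable 2-colouring) then `G` embeds in the same surface.

Proof.  `G` is a minor of the 1-skeleton.  Nodes = clusters of points with the same label.  While there are floating nodes: let
`B` be the floating nodes of one side, `A` those of the other side, `|A| ≤ |B|`; choose by `M_GSL` a nonempty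
set `D ⊆ B` and links `f m - m - g m` through some `m ∈ D` that connect everything that is linked through
`D`; merge the linked nodes, swallow the used `m` and delete `D` (`M_STP`).
-/

set_option autoImplicit false

namespace Pool.Agent.BIP

open Relation Module

/-! ## Linear algebra -/

/-- (module RAD) Rado's theorem for vectors.

Proof (Welsh).  Write `U D' = span (⋃ m ∈ D', A m)`, `r D' = finrank (U D')`.  Strong induction on `∑ m ∈ D, (A m).card`.
The hypothesis for `D' = {m}` shows that `A m` is nonempty for `m ∈ D`.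
If `(A m).card = 1` for all `m ∈ D`, let `f m` be the element of `A m`; then `⋃ m ∈ D, A m = f '' D` spans a space of dimension
`≥ D.card`, so `f` is linearly independent on `D` (`linearIndependent_iff_card_le_finrank_span` or similar, for the
family `fun m : D => f m`).
Otherwise there are `m ∈ D` and `a ≠ b` in `A m`.  Claim: for `c = a` or for `c = b` the family `A'` with
`A' m = (A m).erase c`, `A' m' = A m'` for `m' ≠ m` satisfies the hypothesis (then apply the induction hypothesis; `A' m ⊆ A m`).
Suppose not.  Then there are `D1, D2 ⊆ D` which violate the condition for `c = a`, `c = b`; both contain `m` (otherwise the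
condition is the old one).  Let `Di = insert m Ei`, `m ∉ Ei`.  Let `X1 = span (⋃_{E1} A ∪ (A m).erase a)`,
`X2 = span (⋃_{E2} A ∪ (A m).erase b)`: `finrank X1 ≤ E1.card`, `finrank X2 ≤ E2.card`.  `X1 ⊔ X2 ⊇ U (insert m (E1 ∪ E2))` (as
`a ≠ b`, every element of `A m` is in one of the two erased sets), and `X1 ⊓ X2 ⊇ U (E1 ∩ E2)`.  With
`Submodule.finrank_sup_add_finrank_inf_eq`:
`E1.card + E2.card ≥ finrank X1 + finrank X2 ≥ ((E1 ∪ E2).card + 1) + (E1 ∩ E2).card = E1.card + E2.card + 1`.
Contradiction. -/
def M_RAD : Prop :=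
  ∀ (V M : Type) [AddCommGroup V] [Module ℚ V] [FiniteDimensional ℚ V] [DecidableEq M]
    (D : Finset M) (A : M → Finset V),
    (∀ D' ⊆ D, D'.card ≤ finrank ℚ (Submodule.span ℚ (⋃ m ∈ D', (A m : Set V)))) →
    ∃ f : M → V, (∀ m ∈ D, f m ∈ A m) ∧ LinearIndependent ℚ (fun m : D => f m)

/-- (module SEL) selection.

Proof (uses `M_RAD`).  Let `r D' = finrank (span (⋃ m ∈ D', A m))` (monotone in `D'`).  Among the nonempty subsets `D'` of `D` with
`r D' ≤ D'.card` choose one, `D'`, of minimal cardinality (so every nonempty proper subset `X` of `D'` has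
`X.card < r X`).
Case `r D' < D'.card`.  Then `D'.card = 1`: otherwise take `m ∈ D'`, `X = D'.erase m` is nonempty, so
`D'.card - 1 < r X ≤ r D' < D'.card`, contradiction.  So `r D' = 0`, the span is `⊥`; `J = ∅`.
Case `r D' = D'.card`.  Then every `X ⊆ D'` satisfies `X.card ≤ r X` (`X = ∅`, `X` proper, `X = D'`), so by `M_RAD` there is
`f` with `f m ∈ A m`, linearly independent on `D'`; take `J = D'`.  `span (f '' J) ≤ span (⋃ …)`, and both have dimension
`D'.card` (`finrank_span_eq_card` for a linearly independent family), so they are equal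
(`Submodule.eq_of_le_of_finrank_eq`). -/
def M_SEL : Prop :=
  ∀ (V M : Type) [AddCommGroup V] [Module ℚ V] [FiniteDimensional ℚ V] [DecidableEq M]
    (D : Finset M) (A : M → Finset V), D.Nonempty →
    finrank ℚ (Submodule.span ℚ (⋃ m ∈ D, (A m : Set V))) ≤ D.card →
    ∃ D' ⊆ D, D'.Nonempty ∧ ∃ J ⊆ D', ∃ f : M → V, (∀ m ∈ J, f m ∈ A m) ∧
      Submodule.span ℚ (f '' (J : Set M)) = Submodule.span ℚ (⋃ m ∈ D', (A m : Set V))

/-- (module CMP) if `e_x - e_y` is a combination of the vectors `e_a - e_b`, `ρ a b`, then `x` and `y` are in the same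
component of `ρ`.

Proof.  Consider the linear functional `φ v = ∑ z with EqvGen ρ x z, v z` (classical decidability).  `φ (dv a b) = 0` for `ρ a b`,
because `a` and `b` are both in the component of `x` or both not.  So `φ` vanishes on the span (`Submodule.span_le`, kernel).
If `y` is not in the component then `φ (dv x y) = 1 ≠ 0`. -/
def M_CMP : Prop :=
  ∀ (N : Type) [Fintype N] [DecidableEq N] (ρ : N → N → Prop) (x y : N),
    dv x y ∈ Submodule.span ℚ {v | ∃ a b, ρ a b ∧ v = dv a b} → EqvGen ρ x y

/-- (module RNK) the rank of links between nodes of equal label that are in `A` or roots is at most the number of elements of `A`.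

Proof.  Let `U` be the span.  All `v ∈ U` satisfy: (i) `v z = 0` if `z ∉ A` and `z ≠ root (lab z)`;
(ii) `∑ z with lab z = w, v z = 0` for all `w` (`Submodule.span_induction`, for `dv a b` with `lab a = lab b`).
The linear map `U → (A → ℚ)`, the restriction of functions to `A`, is injective: if `v ∈ U` vanishes on `A`, then by (i) `v z ≠ 0` only for
roots, `z = root (lab z)`, and by (ii) for `w = lab z`, where `z` is the only possible nonzero term, `v z = 0`.  So
`finrank U ≤ finrank (A → ℚ) = A.card` (`LinearMap.finrank_le_finrank_of_injective`). -/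
def M_RNK : Prop :=
  ∀ (N W : Type) [Fintype N] [DecidableEq N] (lab : N → W) (root : W → N) (A : Finset N)
    (ρ : N → N → Prop),
    (∀ x y, ρ x y → lab x = lab y ∧ (x ∈ A ∨ x = root (lab x)) ∧ (y ∈ A ∨ y = root (lab y))) →
    finrank ℚ (Submodule.span ℚ {v : N → ℚ | ∃ a b, ρ a b ∧ v = dv a b}) ≤ A.card

/-- (module GSL) selection for graphs: `h m x y` means that `x` and `y` are linked through `m`.

Proof (uses `M_SEL`, `M_CMP`, `M_RNK`).  `V = N → ℚ`, `A' m` = the finite set of all `dv x y` with `h m x y`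
(`(Finset.univ.filter fun p : N × N => h m p.1 p.2).image fun p => dv p.1 p.2`, classical).  By `M_RNK` for
`ρ x y = ∃ m ∈ B, h m x y` the span of `⋃ m ∈ B, A' m` has dimension `≤ A.card ≤ B.card`.  `M_SEL` gives `D ⊆ B`, `J ⊆ D` and vectors
`φ m ∈ A' m` for `m ∈ J`, `φ m = dv (f m) (g m)` with `h m (f m) (g m)` (choice; `f m = g m = m` outside of `J`).  If `h m x y`, `m ∈ D`,
then `dv x y` is in the span of `⋃ m ∈ D, A' m`, so in the span of the `dv (f m) (g m)`, `m ∈ J`; now use `M_CMP`. -/
def M_GSL : Prop :=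
  ∀ (N W : Type) [Fintype N] [DecidableEq N] (lab : N → W) (root : W → N) (A B : Finset N)
    (h : N → N → N → Prop),
    (∀ m ∈ B, ∀ x y, h m x y →
      lab x = lab y ∧ (x ∈ A ∨ x = root (lab x)) ∧ (y ∈ A ∨ y = root (lab y))) →
    B.Nonempty → A.card ≤ B.card →
    ∃ D ⊆ B, D.Nonempty ∧ ∃ J ⊆ D, ∃ f g : N → N, (∀ m ∈ J, h m (f m) (g m)) ∧
      ∀ x y, (∃ m ∈ D, h m x y) → EqvGen (fun a b => ∃ m ∈ J, a = f m ∧ b = g m) x y

/-! ## Graphs -/

/-- (module UNI) composition of minors.

Proof.  Given `T'` for `P'`, put `T w = ⋃ q ∈ T' w, terr q`.  Disjoint: a common point of `T u` and `T w` is in `terr q`, `q ∈ T' u` and in `terr q'`,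
`q' ∈ T' w`; `q ≠ q'` since `T' u`, `T' w` are disjoint; contradiction to the disjointness of the `terr`.
Connected: let `x ∈ terr q`, `y ∈ terr q'`, `q, q' ∈ T' w`; there is a walk from `q` to `q'` in `P'.induce (T' w)`; induction on this walk: for
consecutive `q1, q2` there are adjacent `a ∈ terr q1`, `b ∈ terr q2`, and `x` is connected with `a` inside `terr q1`
(`SimpleGraph.Reachable.map` along the inclusion `P.induce (terr q1) →g P.induce (T w)`).
Contacts: `x' ∈ T' (s e)`, `y' ∈ T' (t e)` adjacent in `P'` give adjacent `x ∈ terr x'`, `y ∈ terr y'`. -/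
def M_UNI : Prop :=
  ∀ (N N' W E : Type) (P : SimpleGraph N) (P' : SimpleGraph N') (root : W → N) (root' : W → N')
    (s t : E → W) (terr : N' → Set N),
    (∀ q, (P.induce (terr q)).Preconnected) → (∀ q q', q ≠ q' → Disjoint (terr q) (terr q')) →
    (∀ q q', P'.Adj q q' → ∃ x ∈ terr q, ∃ y ∈ terr q', P.Adj x y) →
    (∀ w, root w ∈ terr (root' w)) → Sol P' root' s t → Sol P root s t

/-- The links through `m` in a chain system. -/
def CS.lnk {N W E : Type} (S : CS N W E) (m x y : N) : Prop :=
  ∃ e, (S.R e x m ∧ S.R e y m) ∨ (S.R e m x ∧ S.R e m y)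

/-- (module QUO) the contraction step.

Proof.  Let `h x y := ∃ m ∈ D, S.lnk m x y`.  Facts.  (1) `R e x m`, `m ∈ D` (so `m` floating, `side m = b`): `m ≠ root (t e)` because
`lab m = t e` and `m` is floating; so by `R_side` `x = root (s e)` or `side x ≠ b`; so `x ∉ D` (`lab x = s e`, elements of `D` are floating
with side `b`), and `x` is a root or has side `≠ b`.  The same for `R e m y`.  So `h x y` implies: `lab x = lab y`, `x, y ∉ D`, and each of
`x, y` is a root or has side `≠ b`.
Let `N0 = {x // x ∉ D}`, `N' = Quotient` of `N0` by `EqvGen` of `h`.  (Finite, classical decidable equality.)  `lab' ⟦x⟧ = lab x` (well defined by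
(1)), `root' w = ⟦root w⟧`, `side' q = side (out q)`, `s, t` unchanged, `R' e X Y := ∃ x y, x, y ∉ D, R e x y, ⟦x⟧ = X, ⟦y⟧ = Y`,
`terr q = {x ∉ D | ⟦x⟧ = q} ∪ {m ∈ J | ⟦f m⟧ = q}` (`f m, g m ∉ D` for `m ∈ J` by (1)),
`P'.Adj q q' := q ≠ q' ∧ ∃ x ∈ terr q, ∃ y ∈ terr q', P.Adj x y`.
Check of the fields.  `R_adj`: `X ≠ Y` because `lab' X = s e ≠ t e = lab' Y`.  `R_side`: let `R e x y`, `X = ⟦x⟧ ≠ root' (s e)`,
`Y = ⟦y⟧ ≠ root' (t e)`; then `x ≠ root (s e)`, `y ≠ root (t e)`, so `side x ≠ side y`; and `side' X = side x`: let `x0 = out X`, if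
`x0 ≠ x` then both are ends of some `h`-step (look at the first and the last step; or show by induction: `EqvGen h x x0` implies
`x = x0` or both are `h`-ends), a root `r` in the class of `x` would have `lab r = lab x = s e`, so `r = root (s e)` and `X = root' (s e)`;
so both have side `≠ b`, so equal sides.  The same for `Y`.
`conn`: fix `e`, define `φ : N → N'`: `φ z = ⟦z⟧` if `z ∉ D`; if `z ∈ D` and there is a node `x` with `R e x z` or `R e z x` choose one and put
`φ z = ⟦x⟧`; else anything (a fixed class).  `R e x y` implies `EqvGen (R' e) (φ x) (φ y)`: if `x, y ∉ D` clear; if `x ∈ D` then `y ∉ D`, and for the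
chosen neighbour `x0` of `x` we have `R e x x0` (not `R e x0 x`, as `lab x = s e ≠ t e`), so `h y x0` and `φ x = ⟦x0⟧ = ⟦y⟧ = φ y`;
similarly for `y ∈ D`.  Then `EqvGen.mono`-like induction (`EqvGen (R e) x y → EqvGen (R' e) (φ x) (φ y)`), and `φ (root w) = root' w` as roots
are not in `D`.
Number of floating nodes: if `q` is floating in the new system then `out q` is floating in `S` and not in `D` (if `out q = root (lab (out q))`
then `q = root' (lab' q)`), and `out` is injective; so the new number is at most the old one minus `D.card`.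
Solutions: apply `M_UNI` with `terr`.  `terr q` is connected: two elements `x, y ∉ D` of the same class are `EqvGen h` related, so by the
hypothesis on `J, f, g` they are related by `EqvGen` of the steps `f m, g m` (`m ∈ J`); each such step is a path `f m - m - g m` in
`P` (`lnk m (f m) (g m)` gives two edges of `P`), and `m ∈ terr ⟦f m⟧`, `⟦f m⟧ = ⟦g m⟧`; and `m ∈ J` is adjacent to `f m`.  Disjoint: clear. -/
def M_QUO : Prop := M_UNI →
  ∀ (N W E : Type) [Fintype N] [DecidableEq N] (S : CS N W E) (b : Bool) (D J : Finset N)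
    (f g : N → N), (∀ m ∈ D, S.Flt m ∧ S.side m = b) → J ⊆ D →
    (∀ m ∈ J, S.lnk m (f m) (g m)) →
    (∀ x y, (∃ m ∈ D, S.lnk m x y) → EqvGen (fun a c => ∃ m ∈ J, a = f m ∧ c = g m) x y) →
    ∃ (N' : Type) (_ : Fintype N') (S' : CS N' W E), S'.s = S.s ∧ S'.t = S.t ∧
      Nat.card {x // S'.Flt x} + D.card ≤ Nat.card {x // S.Flt x} ∧
      (Sol S'.P S'.root S'.s S'.t → Sol S.P S.root S.s S.t)

/-- (module IND) every chain system has a solution.

Proof (uses `M_GSL`, `M_QUO`, `M_UNI`).  Strong induction on `Nat.card {x // S.Flt x}` (generalizing `N` and `S`).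
(a) No floating node: `T w = {root w}`.  Disjoint since `root` is injective (`lab_root`); a singleton is connected.  For an edge `e`: if
`R e x y` then `x = root (lab x) = root (s e)` and `y = root (t e)`, so it suffices to find `x, y` with `R e x y`; if there are none, then
`EqvGen (R e) u v` implies `u = v`, so `root (s e) = root (t e)` by `conn`, `s e = t e`, against `ne`.
(b) Otherwise let `X b` = the finset of floating nodes of side `b`; choose `b` such that `(X !b).card ≤ (X b).card`; then `X b` is nonempty.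
Apply `M_GSL` with `A = X !b`, `B = X b`, `h = S.lnk`: the hypothesis holds by `R_s`, `R_t`, `R_side`: if `R e x m ∧ R e y m`, `m` floating of side `b`,
then `lab x = s e = lab y`, `m ≠ root (t e)`, so `x = root (s e) = root (lab x)` or `side x = !b`, in which case `x` is a root or in `X !b`;
the same for `R e m x ∧ R e m y`.  We get `D`, `J`, `f`, `g`; apply `M_QUO`; `D.card > 0`, so the new system has fewer floating nodes; by
the induction hypothesis it has a solution, hence `S` has one. -/
def M_IND : Prop := M_GSL → M_QUO → M_UNI →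
  ∀ (N W E : Type) [Fintype N] (S : CS N W E), Sol S.P S.root S.s S.t

end Pool.Agent.BIP

namespace Pool.Agent.BIP

open Relation Pool.Agent.Lib_helper38.Adj

/-! ## Drawings -/

/-- (module LAB) labels exist.

Proof.  Fix `w0 : W`.  For a point `p`: if `p = D.pt w` take `w` (`pt_inj`, `D.through_pt`).  Otherwise any two edges through `p` have a common end
(`hD` and `D.indep_iff`).  If there is no edge through `p` take `w0`; if there is exactly one, take one of its ends; if there are two different
ones `e, f` through `p` take a common end `l`; every edge `g` through `p` is `e` or `f` by `D.through_general`.  (See the proof of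
`Drawing.exists_lmap` in `Pool/Agent/Lib_helper38/Adj/Drawing.lean`, which contains this argument.) -/
def M_LAB : Prop :=
  ∀ (Φ W : Type) [Nonempty W] (M : FMap Φ) (G : SimpleGraph W) (D : Drawing G M), D.indep = ∅ →
    ∃ l : M.Vert → W, D.IsLabel l

/-- (module TNG) tangled edges.

Proof.  Let `col p = c (l p)`.  Let `Cons p q`, `p`, `q` not grounded: `s(p, q) ∈ (D.arc h).edges`, `h : G.Adj u w`.  So there is `i` with
`i < length`, `p, q` = `getVert i`, `getVert (i+1)` in some order.  By `IsLabel` `l p, l q ∈ {u, w}`.  If `l p = l q`, clear.  Otherwise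
`{l p, l q} = {u, w}`.  If the edge is tangled, `c u ≠ c w`, done.  If it is not tangled: let `p' = getVert i`, `q' = getVert (i+1)`.
`l p' = w, l q' = u` is impossible (tangled with `i, i+1`), so `l p' = u`, `l q' = w`.  All `getVert k`, `k ≤ i`, have label `u`
(label `w` at `k < i` and `u` at `i` would be tangled), so `p'` is grounded: `getVert 0 = D.pt u`, and `getVert k`, `getVert (k+1)` are `Cons`
(induction on `k`; `EqvGen` steps).  So `p` or `q` is grounded, contradiction. -/
def M_TNG : Prop :=
  ∀ (Φ W : Type) (M : FMap Φ) (G : SimpleGraph W) (D : Drawing G M) (l : M.Vert → W),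
    D.IsLabel l → ∀ c : W → Bool,
    (∀ {u w : W} (h : G.Adj u w), D.Tangled l h → c u ≠ c w) →
    ∃ col : M.Vert → Bool, ∀ p q, D.Cons p q → ¬ D.Grounded l p → ¬ D.Grounded l q →
      (col p = col q ↔ l p = l q)

/-- (module DRW) from drawings to chain systems.

Proof (uses `M_UNI`).  Let `st a c := D.Cons a c ∧ l a = l c`, `N` = quotient of `M.Vert` by `EqvGen st`, `terr q` = the class.  `lab ⟦p⟧ = l p` (well
defined), `root w = ⟦D.pt w⟧`; `E = {p : W × W // G.Adj p.1 p.2}`, `s e = e.1.1`, `t e = e.1.2`;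
`R e X Y := ∃ p q, ⟦p⟧ = X ∧ ⟦q⟧ = Y ∧ s(p, q) ∈ (D.arc e.2).edges ∧ l p = e.1.1 ∧ l q = e.1.2`;
`P.Adj X Y := X ≠ Y ∧ ∃ p q, ⟦p⟧ = X ∧ ⟦q⟧ = Y ∧ M.skel.Adj p q`; `side X = col (out X)`.
Fields.  `R_adj`: edges of a walk are edges of `M.skel`, `X ≠ Y` by the labels.  `R_side`: `R e X Y` by `p, q`; if `D.Grounded l p` then
`X = ⟦D.pt (l p)⟧ = root (s e)`; the same for `q`; if both are not grounded then `col p ≠ col q` (as `l p ≠ l q`), and `side X = col p`: in the
class of a non-grounded point all points are non-grounded and have the same colour (induction on `EqvGen`: `st a c`, `a` not grounded, then `c` is not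
grounded, and `col a = col c` by `hcol`); so `side X ≠ side Y`.
`conn`: for the walk `D.arc e.2` show by induction on walks `c : M.skel.Walk p q` all of whose edges are edges of `D.arc e.2`: `EqvGen (R e) ⟦p⟧ ⟦q⟧`
(one edge `s(p, p')`: the labels are in `{u, w}` by `IsLabel`, `p, p'` being in the support; if they are equal, `⟦p⟧ = ⟦p'⟧`; otherwise
`R e ⟦p⟧ ⟦p'⟧` or `R e ⟦p'⟧ ⟦p⟧`).
Apply the hypothesis `hIND` (every chain system has a solution), then `M_UNI` with `P = M.skel`, `root = D.pt`, `terr q = {p | ⟦p⟧ = q}`, which is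
connected in `M.skel` (`st` steps are edges). -/
def M_DRW : Prop := M_UNI →
  (∀ (N W E : Type) [Fintype N] (S : CS N W E), Sol S.P S.root S.s S.t) →
  ∀ (Φ W : Type) [Finite Φ] (M : FMap Φ) (G : SimpleGraph W) (D : Drawing G M)
    (l : M.Vert → W), D.IsLabel l → ∀ col : M.Vert → Bool,
    (∀ p q, D.Cons p q → ¬ D.Grounded l p → ¬ D.Grounded l q → (col p = col q ↔ l p = l q)) →
    Sol M.skel D.pt (fun e : {p : W × W // G.Adj p.1 p.2} => e.1.1) (fun e => e.1.2)

/-- the final statement -/
def Stmt_final : Prop :=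
  ∀ (Φ W : Type) [Finite Φ] [Finite W] (M : FMap Φ), M.Conn →
  ∀ (G : SimpleGraph W) (D : Drawing G M), D.indep = ∅ →
    (G.Colorable 2 ∨
      (∃ l, D.IsLabel l ∧ ∃ c : W → Bool, ∀ {u w : W} (h : G.Adj u w), D.Tangled l h → c u ≠ c w) ∨
      (∃ l, D.IsLabel l ∧ ∃ col : M.Vert → Bool, ∀ p q, D.Cons p q → ¬ D.Grounded l p →
        ¬ D.Grounded l q → (col p = col q ↔ l p = l q))) →
    ∃ N : FMap Φ, N.Conn ∧ N.chi = M.chi ∧ (N.Orientable ↔ M.Orientable) ∧
      ∃ E : Drawing G N, Pool.Agent.HE.IsEmb E

/-- assembly -/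
theorem final_of (hRAD : M_RAD) (hSEL : M_RAD → M_SEL) (hCMP : M_CMP) (hRNK : M_RNK)
    (hGSL : M_SEL → M_CMP → M_RNK → M_GSL) (hUNI : M_UNI) (hQUO : M_QUO) (hIND : M_IND)
    (hLAB : M_LAB) (hTNG : M_TNG) (hDRW : M_DRW) : Stmt_final := by
  intro Φ W _ _ M hM G D hD h
  have hG : M_GSL := hGSL (hSEL hRAD) hCMP hRNK
  rcases isEmpty_or_nonempty W with hW | hW
  · exact Pool.Agent.HE.minor_embeds M hM G (fun w => hW.elim w) (fun w => hW.elim w)
      (fun w => hW.elim w) (fun w => hW.elim w) (fun w => hW.elim w)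
  have key : ∃ l, D.IsLabel l ∧ ∃ col : M.Vert → Bool, ∀ p q, D.Cons p q → ¬ D.Grounded l p →
      ¬ D.Grounded l q → (col p = col q ↔ l p = l q) := by
    rcases h with h | ⟨l, hl, c, hc⟩ | h
    · obtain ⟨l, hl⟩ := hLAB Φ W M G D hD
      obtain ⟨c⟩ := h
      obtain ⟨col, hcol⟩ := hTNG Φ W M G D l hl (fun w => decide (c w = 0)) (by
        intro u w hadj _ heq
        have h1 := c.valid hadj
        have h2 : (c u = 0) ↔ (c w = 0) := by simpa using heq
        omega)
      exact ⟨l, hl, col, hcol⟩
    · obtain ⟨col, hcol⟩ := hTNG Φ W M G D l hl c hc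
      exact ⟨l, hl, col, hcol⟩
    · exact h
  obtain ⟨l, hl, col, hcol⟩ := key
  obtain ⟨T, h1, h2, h3, h4⟩ := hDRW hUNI (fun N W E _ S => hIND hG hQUO hUNI N W E S) Φ W M G D l hl
    col hcol
  exact Pool.Agent.HE.minor_embeds M hM G T (fun w => ⟨_, h1 w⟩) h2 h3
    (fun u w huw => h4 ⟨(u, w), huw⟩)

end Pool.Agent.BIP
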